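import Pool.Agent.helper14.NS.Q45e.PN3

/-!
Generated: certificates.
-/

namespace Pool.Agent.helper14.NS.Q45e

open Pool.Agent.helper31.IA (Z)
open Pool.Agent.helper31.IX (Op XOps runX Cov CovD cov_split covD_split)
open Pool.Agent.helper31.IC (TD)
open Pool.Agent.helper63.RG (reloc)
open Pool.Agent.helper63.NF hiding TD
open Pool.Agent.helper4.NS
open Pool.Agent.helper14.CF (xE covD_E)
open Pool.Agent.helper14.NR (share)

mutual
theorem A3_c0_t5 : CovD 1 gA3 [(18235260928, 2066219008), (68719476736, 68719476736), (2199023255552, 2199023255552)] :=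
  covD_E kA3_eq (.n 2 (.n 2 (.n 0 (.n 2 (.l 0) (.l 0)) (.n 2 (.l 0) (.l 0))) (.n 2 (.n 0 (.l 0) (.l 0)) (.l 0))) (.n 2 (.n 2 (.l 0) (.l 0)) (.n 0 (.l 0) (.l 0))))
    [(18235260928, 2066219008), (68719476736, 68719476736), (2199023255552, 2199023255552)] rfl (by decide +kernel)
theorem A3_c0_t6 : CovD 1 gA3 [(18235260928, 2066219008), (68719476736, 68719476736), (6597069766656, 2199023255552)] :=
  covD_E kA3_eq (.n 2 (.n 2 (.n 2 (.n 2 (.l 0) (.n 0 (.n 2 (.l 0) (.n 0 (.l 1) (.n 0 (.l 1) (.l 0)))) (.n 0 (.n 0 (.l 0) (.l 0)) (.l 0)))) (.n 0 (.l 1) (.n 0 (.l 1) (.l 1)))) (.l 1)) (.l 1))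
    [(18235260928, 2066219008), (68719476736, 68719476736), (6597069766656, 2199023255552)] rfl (by decide +kernel)
end

mutual
theorem A3_c0_t8 : CovD 1 gA3 [(18235260928, 2066219008), (206158430208, 68719476736), (2199023255552, 2199023255552)] :=
  covD_E kA3_eq (.n 2 (.n 2 (.n 2 (.l 0) (.l 0)) (.n 2 (.l 0) (.l 0))) (.n 0 (.n 2 (.l 0) (.l 0)) (.n 2 (.l 0) (.l 0))))
    [(18235260928, 2066219008), (206158430208, 68719476736), (2199023255552, 2199023255552)] rfl (by decide +kernel)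
theorem A3_c0_t9 : CovD 1 gA3 [(18235260928, 2066219008), (206158430208, 68719476736), (6597069766656, 2199023255552)] :=
  covD_E kA3_eq (.n 2 (.n 0 (.n 2 (.n 2 (.n 0 (.l 0) (.l 0)) (.n 2 (.n 0 (.l 1) (.n 0 (.l 1) (.l 1))) (.l 1))) (.l 1)) (.n 2 (.n 2 (.l 0) (.n 2 (.n 2 (.n 0 (.l 0) (.l 0)) (.l 1)) (.l 1))) (.l 1))) (.l 1))
    [(18235260928, 2066219008), (206158430208, 68719476736), (6597069766656, 2199023255552)] rfl (by decide +kernel)
end

mutual
theorem A3_c0_t12 : CovD 1 gA3 [(18235260928, 2066219008), (343597383680, 68719476736), (2199023255552, 2199023255552)] :=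
  covD_E kA3_eq (.n 2 (.n 2 (.l 0) (.n 0 (.l 0) (.l 0))) (.n 0 (.n 2 (.l 0) (.l 0)) (.n 2 (.l 0) (.l 0))))
    [(18235260928, 2066219008), (343597383680, 68719476736), (2199023255552, 2199023255552)] rfl (by decide +kernel)
theorem A3_c0_t13 : CovD 1 gA3 [(18235260928, 2066219008), (343597383680, 68719476736), (6597069766656, 2199023255552)] :=
  covD_E kA3_eq (.n 2 (.n 0 (.n 2 (.n 2 (.l 0) (.n 0 (.n 2 (.n 0 (.l 0) (.l 0)) (.l 1)) (.n 2 (.l 0) (.l 1)))) (.l 1)) (.n 2 (.n 2 (.l 0) (.n 2 (.l 0) (.n 0 (.l 1) (.n 1 (.l 1) (.l 0))))) (.l 1))) (.l 1))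
    [(18235260928, 2066219008), (343597383680, 68719476736), (6597069766656, 2199023255552)] rfl (by decide +kernel)
end

mutual
theorem A3_c0_t15 : CovD 1 gA3 [(18235260928, 2066219008), (481036337152, 68719476736), (2199023255552, 2199023255552)] :=
  covD_E kA3_eq (.n 2 (.n 2 (.l 0) (.l 0)) (.n 0 (.n 2 (.l 0) (.l 0)) (.n 2 (.l 0) (.l 0))))
    [(18235260928, 2066219008), (481036337152, 68719476736), (2199023255552, 2199023255552)] rfl (by decide +kernel)
theorem A3_c0_t16 : CovD 1 gA3 [(18235260928, 2066219008), (481036337152, 68719476736), (6597069766656, 2199023255552)] :=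
  covD_E kA3_eq (.n 2 (.n 2 (.n 2 (.l 0) (.n 0 (.n 0 (.n 0 (.n 0 (.l 0) (.l 0)) (.l 0)) (.l 0)) (.l 0))) (.n 2 (.n 0 (.n 0 (.l 1) (.l 1)) (.n 1 (.l 1) (.n 2 (.l 0) (.l 1)))) (.l 1))) (.l 1))
    [(18235260928, 2066219008), (481036337152, 68719476736), (6597069766656, 2199023255552)] rfl (by decide +kernel)
end

mutual
theorem A3_c0_t19 : CovD 1 gA3 [(18235260928, 2066219008), (687194767360, 137438953472), (2199023255552, 2199023255552)] :=
  covD_E kA3_eq (.n 1 (.n 2 (.n 2 (.l 0) (.l 0)) (.n 2 (.l 0) (.n 0 (.l 0) (.l 0)))) (.n 2 (.n 2 (.l 0) (.l 0)) (.n 2 (.l 0) (.n 0 (.l 0) (.l 0)))))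
    [(18235260928, 2066219008), (687194767360, 137438953472), (2199023255552, 2199023255552)] rfl (by decide +kernel)
theorem A3_c0_t22 : CovD 1 gA3 [(17202151424, 1033109504), (687194767360, 137438953472), (5497558138880, 1099511627776)] :=
  covD_E kA3_eq (.n 1 (.n 2 (.l 0) (.n 2 (.n 0 (.n 2 (.l 0) (.l 1)) (.n 2 (.l 0) (.l 1))) (.l 1))) (.n 2 (.l 0) (.n 2 (.l 0) (.n 2 (.n 0 (.l 0) (.l 0)) (.l 1)))))
    [(17202151424, 1033109504), (687194767360, 137438953472), (5497558138880, 1099511627776)] rfl (by decide +kernel)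
end

mutual
theorem A3_c0_t23 : CovD 1 gA3 [(19268370432, 1033109504), (687194767360, 137438953472), (5497558138880, 1099511627776)] :=
  covD_E kA3_eq (.n 1 (.n 2 (.l 0) (.n 2 (.n 0 (.n 0 (.l 0) (.l 0)) (.l 0)) (.l 1))) (.n 2 (.l 0) (.n 0 (.n 2 (.l 0) (.l 0)) (.l 0))))
    [(19268370432, 1033109504), (687194767360, 137438953472), (5497558138880, 1099511627776)] rfl (by decide +kernel)
theorem A3_c0_t24 : CovD 1 gA3 [(18235260928, 2066219008), (687194767360, 137438953472), (7696581394432, 1099511627776)] :=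
  covD_E kA3_eq (.n 2 (.n 1 (.l 1) (.n 0 (.l 1) (.l 1))) (.l 1))
    [(18235260928, 2066219008), (687194767360, 137438953472), (7696581394432, 1099511627776)] rfl (by decide +kernel)
end

mutual
theorem A3_c0_t26 : CovD 1 gA3 [(18235260928, 2066219008), (893353197568, 68719476736), (4398046511104, 4398046511104)] :=
  covD_E kA3_eq (.n 2 (.n 2 (.n 2 (.l 0) (.l 0)) (.n 2 (.l 0) (.n 0 (.l 0) (.l 0)))) (.n 2 (.n 0 (.n 2 (.l 0) (.l 0)) (.n 2 (.l 0) (.l 0))) (.n 2 (.n 0 (.n 2 (.n 1 (.l 1) (.l 0)) (.l 1)) (.n 2 (.l 0) (.l 1))) (.l 1))))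
    [(18235260928, 2066219008), (893353197568, 68719476736), (4398046511104, 4398046511104)] rfl (by decide +kernel)
theorem A3_c0_t27 : CovD 1 gA3 [(18235260928, 2066219008), (1030792151040, 68719476736), (4398046511104, 4398046511104)] :=
  covD_E kA3_eq (.n 2 (.n 2 (.n 2 (.l 0) (.l 0)) (.n 2 (.l 0) (.n 0 (.l 0) (.l 0)))) (.n 0 (.n 2 (.n 2 (.l 0) (.l 0)) (.n 2 (.n 0 (.n 0 (.l 0) (.l 0)) (.l 0)) (.l 1))) (.n 2 (.n 2 (.l 0) (.l 0)) (.n 2 (.l 0) (.n 0 (.l 1) (.l 1))))))
    [(18235260928, 2066219008), (1030792151040, 68719476736), (4398046511104, 4398046511104)] rfl (by decide +kernel)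
end

mutual
theorem A3_c0_t31 : CovD 1 gA3 [(22367698944, 2066219008), (137438953472, 137438953472), (2199023255552, 2199023255552)] :=
  covD_E kA3_eq (.n 2 (.n 1 (.n 2 (.n 2 (.l 0) (.l 0)) (.n 2 (.l 0) (.l 0))) (.n 2 (.l 0) (.l 0))) (.n 2 (.n 2 (.l 0) (.l 0)) (.n 1 (.l 0) (.l 0))))
    [(22367698944, 2066219008), (137438953472, 137438953472), (2199023255552, 2199023255552)] rfl (by decide +kernel)
theorem A3_c0_t34 : CovD 1 gA3 [(22367698944, 2066219008), (68719476736, 68719476736), (5497558138880, 1099511627776)] :=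
  covD_E kA3_eq (.n 2 (.n 2 (.n 0 (.l 0) (.l 0)) (.n 2 (.n 0 (.n 0 (.l 1) (.n 0 (.l 1) (.l 1))) (.n 2 (.l 0) (.l 1))) (.l 1))) (.l 1))
    [(22367698944, 2066219008), (68719476736, 68719476736), (5497558138880, 1099511627776)] rfl (by decide +kernel)
end

mutual
theorem A3_c0_t35 : CovD 1 gA3 [(22367698944, 2066219008), (206158430208, 68719476736), (5497558138880, 1099511627776)] :=
  covD_E kA3_eq (.n 2 (.n 2 (.l 0) (.n 0 (.n 2 (.n 0 (.l 0) (.l 0)) (.l 1)) (.n 2 (.l 0) (.n 0 (.l 1) (.l 1))))) (.n 0 (.l 1) (.l 1)))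
    [(22367698944, 2066219008), (206158430208, 68719476736), (5497558138880, 1099511627776)] rfl (by decide +kernel)
theorem A3_c0_t36 : CovD 1 gA3 [(22367698944, 2066219008), (137438953472, 137438953472), (7696581394432, 1099511627776)] :=
  covD_E kA3_eq (.l 1)
    [(22367698944, 2066219008), (137438953472, 137438953472), (7696581394432, 1099511627776)] rfl (by decide +kernel)
end

mutual
theorem A3_c0_t38 : CovD 1 gA3 [(22367698944, 2066219008), (412316860416, 137438953472), (2199023255552, 2199023255552)] :=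
  covD_E kA3_eq (.n 1 (.n 2 (.n 2 (.l 0) (.l 0)) (.n 2 (.l 0) (.l 0))) (.n 2 (.n 2 (.l 0) (.l 0)) (.n 2 (.l 0) (.l 0))))
    [(22367698944, 2066219008), (412316860416, 137438953472), (2199023255552, 2199023255552)] rfl (by decide +kernel)
theorem A3_c0_t40 : CovD 1 gA3 [(21334589440, 1033109504), (412316860416, 137438953472), (6597069766656, 2199023255552)] :=
  covD_E kA3_eq (.n 2 (.n 2 (.n 1 (.n 2 (.l 0) (.n 0 (.n 2 (.l 0) (.l 0)) (.l 0))) (.l 0)) (.n 2 (.n 1 (.l 1) (.n 2 (.l 0) (.l 1))) (.l 1))) (.l 1))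
    [(21334589440, 1033109504), (412316860416, 137438953472), (6597069766656, 2199023255552)] rfl (by decide +kernel)
end

mutual
theorem A3_c0_t41 : CovD 1 gA3 [(23400808448, 1033109504), (412316860416, 137438953472), (6597069766656, 2199023255552)] :=
  covD_E kA3_eq (.n 2 (.n 2 (.n 2 (.l 0) (.l 0)) (.n 2 (.n 0 (.n 1 (.l 1) (.l 0)) (.n 1 (.n 0 (.l 1) (.l 1)) (.l 0))) (.l 1))) (.l 1))
    [(23400808448, 1033109504), (412316860416, 137438953472), (6597069766656, 2199023255552)] rfl (by decide +kernel)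
theorem A3_c0_t44 : CovD 1 gA3 [(22367698944, 2066219008), (687194767360, 137438953472), (2199023255552, 2199023255552)] :=
  covD_E kA3_eq (.n 1 (.n 2 (.n 2 (.l 0) (.l 0)) (.n 2 (.l 0) (.l 0))) (.n 2 (.n 2 (.l 0) (.l 0)) (.n 2 (.l 0) (.l 0))))
    [(22367698944, 2066219008), (687194767360, 137438953472), (2199023255552, 2199023255552)] rfl (by decide +kernel)
end

mutual
theorem A3_c0_t45 : CovD 1 gA3 [(22367698944, 2066219008), (687194767360, 137438953472), (6597069766656, 2199023255552)] :=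
  covD_E kA3_eq (.n 2 (.n 1 (.n 2 (.l 0) (.n 0 (.n 2 (.l 0) (.n 0 (.l 1) (.l 1))) (.n 1 (.n 2 (.l 0) (.l 1)) (.l 0)))) (.n 2 (.l 0) (.n 0 (.l 0) (.l 0)))) (.n 2 (.n 2 (.n 1 (.l 1) (.n 0 (.l 1) (.n 0 (.l 0) (.l 0)))) (.l 1)) (.l 1)))
    [(22367698944, 2066219008), (687194767360, 137438953472), (6597069766656, 2199023255552)] rfl (by decide +kernel)
theorem A3_c0_t47 : CovD 1 gA3 [(22367698944, 2066219008), (893353197568, 68719476736), (4398046511104, 4398046511104)] :=
  covD_E kA3_eq (.n 2 (.n 2 (.n 2 (.l 0) (.l 0)) (.n 2 (.l 0) (.l 0))) (.n 2 (.n 2 (.l 0) (.l 0)) (.n 0 (.n 2 (.n 2 (.l 0) (.l 1)) (.l 1)) (.n 2 (.l 0) (.l 1)))))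
    [(22367698944, 2066219008), (893353197568, 68719476736), (4398046511104, 4398046511104)] rfl (by decide +kernel)
end

mutual
theorem A3_c0_t48 : CovD 1 gA3 [(22367698944, 2066219008), (1030792151040, 68719476736), (4398046511104, 4398046511104)] :=
  covD_E kA3_eq (.n 2 (.n 2 (.n 2 (.l 0) (.l 0)) (.n 2 (.l 0) (.l 0))) (.n 2 (.n 2 (.l 0) (.l 0)) (.n 2 (.l 0) (.n 0 (.n 2 (.l 0) (.l 1)) (.n 0 (.l 0) (.l 0))))))
    [(22367698944, 2066219008), (1030792151040, 68719476736), (4398046511104, 4398046511104)] rfl (by decide +kernel)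
theorem B3_c0_t3 : CovD 1 gB3 [(18235260928, 2066219008), (549755813888, 549755813888), (17179869184, 17179869184)] :=
  covD_E kB3_eq (.n 2 (.n 2 (.n 2 (.l 1) (.n 0 (.l 1) (.l 1))) (.n 0 (.n 1 (.l 1) (.l 1)) (.n 0 (.l 1) (.l 1)))) (.n 0 (.n 2 (.n 0 (.l 1) (.l 1)) (.l 1)) (.n 2 (.l 1) (.l 1))))
    [(18235260928, 2066219008), (549755813888, 549755813888), (17179869184, 17179869184)] rfl (by decide +kernel)
end

mutual
theorem B3_c0_t4 : CovD 1 gB3 [(18235260928, 2066219008), (549755813888, 549755813888), (51539607552, 17179869184)] :=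
  covD_E kB3_eq (.n 0 (.n 2 (.n 2 (.l 1) (.l 1)) (.n 1 (.l 1) (.l 1))) (.n 1 (.n 2 (.l 1) (.l 1)) (.n 2 (.l 1) (.l 1))))
    [(18235260928, 2066219008), (549755813888, 549755813888), (51539607552, 17179869184)] rfl (by decide +kernel)
theorem B3_c0_t5 : CovD 1 gB3 [(18235260928, 2066219008), (549755813888, 549755813888), (103079215104, 34359738368)] :=
  covD_E kB3_eq (.n 1 (.n 2 (.n 2 (.n 0 (.l 1) (.l 1)) (.l 1)) (.n 2 (.l 1) (.l 1))) (.n 2 (.n 2 (.l 1) (.l 1)) (.n 0 (.n 2 (.l 1) (.l 1)) (.n 2 (.l 1) (.l 1)))))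
    [(18235260928, 2066219008), (549755813888, 549755813888), (103079215104, 34359738368)] rfl (by decide +kernel)
end

mutual
theorem B3_c0_t7 : CovD 1 gB3 [(22367698944, 2066219008), (549755813888, 549755813888), (34359738368, 34359738368)] :=
  covD_E kB3_eq (.n 2 (.n 0 (.n 2 (.n 2 (.l 1) (.l 1)) (.n 2 (.l 1) (.l 1))) (.n 2 (.n 2 (.l 1) (.l 1)) (.n 2 (.l 1) (.l 1)))) (.n 2 (.n 2 (.l 1) (.l 1)) (.n 2 (.l 1) (.l 1))))
    [(22367698944, 2066219008), (549755813888, 549755813888), (34359738368, 34359738368)] rfl (by decide +kernel)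
theorem B3_c0_t8 : CovD 1 gB3 [(22367698944, 2066219008), (549755813888, 549755813888), (103079215104, 34359738368)] :=
  covD_E kB3_eq (.n 1 (.n 2 (.n 2 (.l 1) (.l 1)) (.n 0 (.l 1) (.l 1))) (.n 2 (.n 2 (.l 1) (.l 1)) (.n 1 (.l 1) (.n 2 (.l 1) (.l 1)))))
    [(22367698944, 2066219008), (549755813888, 549755813888), (103079215104, 34359738368)] rfl (by decide +kernel)
end

mutual
theorem D3_c0_t3 : CovD 1 gD3 [(20301479936, 4132438016), (68719476736, 68719476736), (863610339328, 863610339328)] :=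
  covD_E kD3_eq (.n 0 (.n 2 (.n 1 (.n 2 (.l 0) (.l 0)) (.n 2 (.l 0) (.l 0))) (.n 2 (.n 2 (.l 0) (.l 0)) (.n 2 (.l 0) (.l 0)))) (.n 1 (.n 2 (.n 2 (.l 0) (.l 0)) (.n 2 (.l 0) (.l 0))) (.n 2 (.n 2 (.l 0) (.l 0)) (.n 2 (.l 0) (.l 0)))))
    [(20301479936, 4132438016), (68719476736, 68719476736), (863610339328, 863610339328)] rfl (by decide +kernel)
theorem D3_c0_t4 : CovD 1 gD3 [(20301479936, 4132438016), (206158430208, 68719476736), (863610339328, 863610339328)] :=
  covD_E kD3_eq (.n 0 (.n 2 (.n 1 (.n 2 (.l 0) (.l 0)) (.n 2 (.l 0) (.l 0))) (.n 2 (.n 2 (.l 0) (.l 0)) (.n 2 (.l 0) (.l 0)))) (.n 1 (.n 2 (.n 2 (.l 0) (.l 0)) (.n 2 (.l 0) (.l 0))) (.n 2 (.n 2 (.l 0) (.l 0)) (.n 2 (.l 0) (.l 0)))))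
    [(20301479936, 4132438016), (206158430208, 68719476736), (863610339328, 863610339328)] rfl (by decide +kernel)
end

mutual
theorem D3_c0_t7 : CovD 1 gD3 [(18235260928, 2066219008), (343597383680, 68719476736), (863610339328, 863610339328)] :=
  covD_E kD3_eq (.n 2 (.n 2 (.n 1 (.l 0) (.l 0)) (.n 2 (.l 0) (.n 0 (.l 0) (.l 0)))) (.n 2 (.n 2 (.l 0) (.l 0)) (.n 2 (.l 0) (.l 0))))
    [(18235260928, 2066219008), (343597383680, 68719476736), (863610339328, 863610339328)] rfl (by decide +kernel)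
theorem D3_c0_t8 : CovD 1 gD3 [(22367698944, 2066219008), (343597383680, 68719476736), (863610339328, 863610339328)] :=
  covD_E kD3_eq (.n 2 (.n 1 (.n 2 (.l 0) (.l 0)) (.n 2 (.l 0) (.l 0))) (.n 2 (.n 1 (.l 0) (.l 0)) (.n 2 (.l 0) (.l 0))))
    [(22367698944, 2066219008), (343597383680, 68719476736), (863610339328, 863610339328)] rfl (by decide +kernel)
end

mutual
theorem D3_c0_t10 : CovD 1 gD3 [(20301479936, 4132438016), (481036337152, 68719476736), (431805169664, 431805169664)] :=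
  covD_E kD3_eq (.n 1 (.n 0 (.n 0 (.n 2 (.l 0) (.l 0)) (.n 2 (.l 0) (.l 0))) (.n 2 (.l 0) (.l 0))) (.n 0 (.n 0 (.n 2 (.l 0) (.l 0)) (.n 2 (.l 0) (.l 0))) (.n 2 (.l 0) (.l 0))))
    [(20301479936, 4132438016), (481036337152, 68719476736), (431805169664, 431805169664)] rfl (by decide +kernel)
theorem D3_c0_t11 : CovD 1 gD3 [(20301479936, 4132438016), (481036337152, 68719476736), (1295415508992, 431805169664)] :=
  covD_E kD3_eq (.n 0 (.n 0 (.n 1 (.n 2 (.l 0) (.l 0)) (.n 2 (.l 0) (.l 0))) (.n 1 (.n 2 (.l 0) (.l 0)) (.n 2 (.l 0) (.l 0)))) (.n 2 (.n 2 (.l 0) (.l 0)) (.n 2 (.l 0) (.l 0))))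
    [(20301479936, 4132438016), (481036337152, 68719476736), (1295415508992, 431805169664)] rfl (by decide +kernel)
end

mutual
theorem D3_c0_t15 : CovD 1 gD3 [(20301479936, 4132438016), (618475290624, 68719476736), (431805169664, 431805169664)] :=
  covD_E kD3_eq (.n 2 (.n 0 (.n 0 (.n 1 (.l 0) (.l 0)) (.n 0 (.l 0) (.l 0))) (.n 0 (.l 0) (.l 0))) (.n 0 (.n 0 (.n 2 (.l 0) (.l 0)) (.n 1 (.l 0) (.l 0))) (.n 2 (.l 0) (.l 0))))
    [(20301479936, 4132438016), (618475290624, 68719476736), (431805169664, 431805169664)] rfl (by decide +kernel)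
theorem D3_c0_t16 : CovD 1 gD3 [(20301479936, 4132438016), (618475290624, 68719476736), (1295415508992, 431805169664)] :=
  covD_E kD3_eq (.n 0 (.n 0 (.n 2 (.n 2 (.l 0) (.l 0)) (.n 2 (.l 0) (.l 0))) (.n 1 (.n 2 (.l 0) (.l 0)) (.n 2 (.l 0) (.l 0)))) (.n 2 (.n 2 (.l 0) (.l 0)) (.n 2 (.l 0) (.l 0))))
    [(20301479936, 4132438016), (618475290624, 68719476736), (1295415508992, 431805169664)] rfl (by decide +kernel)
end

mutual
theorem D3_c0_t19 : CovD 1 gD3 [(17202151424, 1033109504), (755914244096, 68719476736), (863610339328, 863610339328)] :=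
  covD_E kD3_eq (.n 2 (.n 2 (.n 2 (.l 0) (.l 0)) (.n 2 (.l 0) (.n 0 (.l 0) (.l 0)))) (.n 2 (.n 0 (.n 1 (.l 0) (.l 0)) (.n 1 (.l 0) (.l 0))) (.n 2 (.l 0) (.n 0 (.l 0) (.l 0)))))
    [(17202151424, 1033109504), (755914244096, 68719476736), (863610339328, 863610339328)] rfl (by decide +kernel)
theorem D3_c0_t20 : CovD 1 gD3 [(19268370432, 1033109504), (755914244096, 68719476736), (863610339328, 863610339328)] :=
  covD_E kD3_eq (.n 1 (.n 2 (.n 2 (.l 0) (.l 0)) (.n 2 (.l 0) (.l 0))) (.n 2 (.n 2 (.l 0) (.l 0)) (.n 2 (.l 0) (.l 0))))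
    [(19268370432, 1033109504), (755914244096, 68719476736), (863610339328, 863610339328)] rfl (by decide +kernel)
end

mutual
theorem D3_c0_t21 : CovD 1 gD3 [(22367698944, 2066219008), (755914244096, 68719476736), (863610339328, 863610339328)] :=
  covD_E kD3_eq (.n 0 (.n 0 (.n 2 (.n 2 (.l 0) (.l 0)) (.n 2 (.l 0) (.l 0))) (.n 2 (.n 2 (.l 0) (.l 0)) (.n 2 (.l 0) (.l 0)))) (.n 2 (.n 2 (.l 0) (.l 0)) (.n 0 (.n 2 (.l 0) (.l 0)) (.n 2 (.l 0) (.l 0)))))
    [(22367698944, 2066219008), (755914244096, 68719476736), (863610339328, 863610339328)] rfl (by decide +kernel)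
theorem D3_c0_t25 : CovD 1 gD3 [(17202151424, 1033109504), (893353197568, 68719476736), (863610339328, 863610339328)] :=
  covD_E kD3_eq (.n 0 (.n 1 (.n 2 (.n 2 (.l 0) (.l 0)) (.n 2 (.l 0) (.l 0))) (.n 2 (.n 2 (.l 0) (.l 0)) (.n 2 (.l 0) (.l 0)))) (.n 1 (.n 2 (.n 2 (.l 0) (.l 0)) (.n 2 (.l 0) (.l 0))) (.n 2 (.n 2 (.l 0) (.l 0)) (.n 2 (.l 0) (.l 0)))))
    [(17202151424, 1033109504), (893353197568, 68719476736), (863610339328, 863610339328)] rfl (by decide +kernel)
end

mutual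
theorem D3_c0_t26 : CovD 1 gD3 [(19268370432, 1033109504), (893353197568, 68719476736), (863610339328, 863610339328)] :=
  covD_E kD3_eq (.n 2 (.n 2 (.n 1 (.l 0) (.l 0)) (.n 2 (.l 0) (.l 0))) (.n 2 (.n 2 (.l 0) (.l 0)) (.n 2 (.l 0) (.l 0))))
    [(19268370432, 1033109504), (893353197568, 68719476736), (863610339328, 863610339328)] rfl (by decide +kernel)
theorem D3_c0_t27 : CovD 1 gD3 [(22367698944, 2066219008), (893353197568, 68719476736), (863610339328, 863610339328)] :=
  covD_E kD3_eq (.n 0 (.n 1 (.n 2 (.n 2 (.l 0) (.l 0)) (.n 2 (.l 0) (.l 0))) (.n 2 (.n 2 (.l 0) (.l 0)) (.n 2 (.l 0) (.l 0)))) (.n 2 (.n 2 (.l 0) (.l 0)) (.n 0 (.n 2 (.l 0) (.l 0)) (.n 2 (.l 0) (.l 0)))))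
    [(22367698944, 2066219008), (893353197568, 68719476736), (863610339328, 863610339328)] rfl (by decide +kernel)
end

mutual
theorem D3_c0_t30 : CovD 1 gD3 [(17202151424, 1033109504), (1030792151040, 68719476736), (863610339328, 863610339328)] :=
  covD_E kD3_eq (.n 0 (.n 2 (.n 1 (.n 2 (.l 0) (.l 0)) (.n 2 (.l 0) (.l 0))) (.n 2 (.n 2 (.l 0) (.l 0)) (.n 2 (.l 0) (.l 0)))) (.n 1 (.n 2 (.n 2 (.l 0) (.l 0)) (.n 2 (.l 0) (.l 0))) (.n 2 (.n 2 (.l 0) (.l 0)) (.n 2 (.l 0) (.l 0)))))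
    [(17202151424, 1033109504), (1030792151040, 68719476736), (863610339328, 863610339328)] rfl (by decide +kernel)
theorem D3_c0_t31 : CovD 1 gD3 [(19268370432, 1033109504), (1030792151040, 68719476736), (863610339328, 863610339328)] :=
  covD_E kD3_eq (.n 2 (.n 2 (.n 2 (.l 0) (.l 0)) (.n 2 (.l 0) (.l 0))) (.n 2 (.n 2 (.l 0) (.l 0)) (.n 2 (.l 0) (.l 0))))
    [(19268370432, 1033109504), (1030792151040, 68719476736), (863610339328, 863610339328)] rfl (by decide +kernel)
end

theorem D3_c0_t32 : CovD 1 gD3 [(22367698944, 2066219008), (1030792151040, 68719476736), (863610339328, 863610339328)] :=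
  covD_E kD3_eq (.n 0 (.n 1 (.n 2 (.n 2 (.l 0) (.l 0)) (.n 2 (.l 0) (.l 0))) (.n 2 (.n 2 (.l 0) (.l 0)) (.n 2 (.l 0) (.l 0)))) (.n 2 (.n 2 (.l 0) (.n 0 (.l 0) (.l 0))) (.n 0 (.n 2 (.l 0) (.l 0)) (.n 2 (.l 0) (.l 0)))))
    [(22367698944, 2066219008), (1030792151040, 68719476736), (863610339328, 863610339328)] rfl (by decide +kernel)

theorem A3_c0_t4 : CovD 1 gA3 [(18235260928, 2066219008), (68719476736, 68719476736), (4398046511104, 4398046511104)] :=
  covD_split 2 (by decide +kernel) A3_c0_t5 A3_c0_t6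

theorem A3_c0_t7 : CovD 1 gA3 [(18235260928, 2066219008), (206158430208, 68719476736), (4398046511104, 4398046511104)] :=
  covD_split 2 (by decide +kernel) A3_c0_t8 A3_c0_t9

theorem A3_c0_t3 : CovD 1 gA3 [(18235260928, 2066219008), (137438953472, 137438953472), (4398046511104, 4398046511104)] :=
  covD_split 1 (by decide +kernel) A3_c0_t4 A3_c0_t7

theorem A3_c0_t11 : CovD 1 gA3 [(18235260928, 2066219008), (343597383680, 68719476736), (4398046511104, 4398046511104)] :=
  covD_split 2 (by decide +kernel) A3_c0_t12 A3_c0_t13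

theorem A3_c0_t14 : CovD 1 gA3 [(18235260928, 2066219008), (481036337152, 68719476736), (4398046511104, 4398046511104)] :=
  covD_split 2 (by decide +kernel) A3_c0_t15 A3_c0_t16

theorem A3_c0_t10 : CovD 1 gA3 [(18235260928, 2066219008), (412316860416, 137438953472), (4398046511104, 4398046511104)] :=
  covD_split 1 (by decide +kernel) A3_c0_t11 A3_c0_t14

theorem A3_c0_t2 : CovD 1 gA3 [(18235260928, 2066219008), (274877906944, 274877906944), (4398046511104, 4398046511104)] :=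
  covD_split 1 (by decide +kernel) A3_c0_t3 A3_c0_t10

theorem A3_c0_t21 : CovD 1 gA3 [(18235260928, 2066219008), (687194767360, 137438953472), (5497558138880, 1099511627776)] :=
  covD_split 0 (by decide +kernel) A3_c0_t22 A3_c0_t23

theorem A3_c0_t20 : CovD 1 gA3 [(18235260928, 2066219008), (687194767360, 137438953472), (6597069766656, 2199023255552)] :=
  covD_split 2 (by decide +kernel) A3_c0_t21 A3_c0_t24

theorem A3_c0_t18 : CovD 1 gA3 [(18235260928, 2066219008), (687194767360, 137438953472), (4398046511104, 4398046511104)] :=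
  covD_split 2 (by decide +kernel) A3_c0_t19 A3_c0_t20

theorem A3_c0_t25 : CovD 1 gA3 [(18235260928, 2066219008), (962072674304, 137438953472), (4398046511104, 4398046511104)] :=
  covD_split 1 (by decide +kernel) A3_c0_t26 A3_c0_t27

theorem A3_c0_t17 : CovD 1 gA3 [(18235260928, 2066219008), (824633720832, 274877906944), (4398046511104, 4398046511104)] :=
  covD_split 1 (by decide +kernel) A3_c0_t18 A3_c0_t25

theorem A3_c0_t1 : CovD 1 gA3 [(18235260928, 2066219008), (549755813888, 549755813888), (4398046511104, 4398046511104)] :=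
  covD_split 1 (by decide +kernel) A3_c0_t2 A3_c0_t17

theorem A3_c0_t33 : CovD 1 gA3 [(22367698944, 2066219008), (137438953472, 137438953472), (5497558138880, 1099511627776)] :=
  covD_split 1 (by decide +kernel) A3_c0_t34 A3_c0_t35

theorem A3_c0_t32 : CovD 1 gA3 [(22367698944, 2066219008), (137438953472, 137438953472), (6597069766656, 2199023255552)] :=
  covD_split 2 (by decide +kernel) A3_c0_t33 A3_c0_t36

theorem A3_c0_t30 : CovD 1 gA3 [(22367698944, 2066219008), (137438953472, 137438953472), (4398046511104, 4398046511104)] :=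
  covD_split 2 (by decide +kernel) A3_c0_t31 A3_c0_t32

theorem A3_c0_t39 : CovD 1 gA3 [(22367698944, 2066219008), (412316860416, 137438953472), (6597069766656, 2199023255552)] :=
  covD_split 0 (by decide +kernel) A3_c0_t40 A3_c0_t41

theorem A3_c0_t37 : CovD 1 gA3 [(22367698944, 2066219008), (412316860416, 137438953472), (4398046511104, 4398046511104)] :=
  covD_split 2 (by decide +kernel) A3_c0_t38 A3_c0_t39

theorem A3_c0_t29 : CovD 1 gA3 [(22367698944, 2066219008), (274877906944, 274877906944), (4398046511104, 4398046511104)] :=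
  covD_split 1 (by decide +kernel) A3_c0_t30 A3_c0_t37

theorem A3_c0_t43 : CovD 1 gA3 [(22367698944, 2066219008), (687194767360, 137438953472), (4398046511104, 4398046511104)] :=
  covD_split 2 (by decide +kernel) A3_c0_t44 A3_c0_t45

theorem A3_c0_t46 : CovD 1 gA3 [(22367698944, 2066219008), (962072674304, 137438953472), (4398046511104, 4398046511104)] :=
  covD_split 1 (by decide +kernel) A3_c0_t47 A3_c0_t48

theorem A3_c0_t42 : CovD 1 gA3 [(22367698944, 2066219008), (824633720832, 274877906944), (4398046511104, 4398046511104)] :=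
  covD_split 1 (by decide +kernel) A3_c0_t43 A3_c0_t46

theorem A3_c0_t28 : CovD 1 gA3 [(22367698944, 2066219008), (549755813888, 549755813888), (4398046511104, 4398046511104)] :=
  covD_split 1 (by decide +kernel) A3_c0_t29 A3_c0_t42

theorem A3_c0 : CovD 1 gA3 [(20301479936, 4132438016), (549755813888, 549755813888), (4398046511104, 4398046511104)] :=
  covD_split 0 (by decide +kernel) A3_c0_t1 A3_c0_t28

theorem B3_c0_t2 : CovD 1 gB3 [(18235260928, 2066219008), (549755813888, 549755813888), (34359738368, 34359738368)] :=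
  covD_split 2 (by decide +kernel) B3_c0_t3 B3_c0_t4

theorem B3_c0_t1 : CovD 1 gB3 [(18235260928, 2066219008), (549755813888, 549755813888), (68719476736, 68719476736)] :=
  covD_split 2 (by decide +kernel) B3_c0_t2 B3_c0_t5

theorem B3_c0_t6 : CovD 1 gB3 [(22367698944, 2066219008), (549755813888, 549755813888), (68719476736, 68719476736)] :=
  covD_split 2 (by decide +kernel) B3_c0_t7 B3_c0_t8

theorem B3_c0 : CovD 1 gB3 [(20301479936, 4132438016), (549755813888, 549755813888), (68719476736, 68719476736)] :=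
  covD_split 0 (by decide +kernel) B3_c0_t1 B3_c0_t6

theorem D3_c0_t2 : CovD 1 gD3 [(20301479936, 4132438016), (137438953472, 137438953472), (863610339328, 863610339328)] :=
  covD_split 1 (by decide +kernel) D3_c0_t3 D3_c0_t4

theorem D3_c0_t6 : CovD 1 gD3 [(20301479936, 4132438016), (343597383680, 68719476736), (863610339328, 863610339328)] :=
  covD_split 0 (by decide +kernel) D3_c0_t7 D3_c0_t8

theorem D3_c0_t9 : CovD 1 gD3 [(20301479936, 4132438016), (481036337152, 68719476736), (863610339328, 863610339328)] :=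
  covD_split 2 (by decide +kernel) D3_c0_t10 D3_c0_t11

theorem D3_c0_t5 : CovD 1 gD3 [(20301479936, 4132438016), (412316860416, 137438953472), (863610339328, 863610339328)] :=
  covD_split 1 (by decide +kernel) D3_c0_t6 D3_c0_t9

theorem D3_c0_t1 : CovD 1 gD3 [(20301479936, 4132438016), (274877906944, 274877906944), (863610339328, 863610339328)] :=
  covD_split 1 (by decide +kernel) D3_c0_t2 D3_c0_t5

theorem D3_c0_t14 : CovD 1 gD3 [(20301479936, 4132438016), (618475290624, 68719476736), (863610339328, 863610339328)] :=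
  covD_split 2 (by decide +kernel) D3_c0_t15 D3_c0_t16

theorem D3_c0_t18 : CovD 1 gD3 [(18235260928, 2066219008), (755914244096, 68719476736), (863610339328, 863610339328)] :=
  covD_split 0 (by decide +kernel) D3_c0_t19 D3_c0_t20

theorem D3_c0_t17 : CovD 1 gD3 [(20301479936, 4132438016), (755914244096, 68719476736), (863610339328, 863610339328)] :=
  covD_split 0 (by decide +kernel) D3_c0_t18 D3_c0_t21

theorem D3_c0_t13 : CovD 1 gD3 [(20301479936, 4132438016), (687194767360, 137438953472), (863610339328, 863610339328)] :=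
  covD_split 1 (by decide +kernel) D3_c0_t14 D3_c0_t17

theorem D3_c0_t24 : CovD 1 gD3 [(18235260928, 2066219008), (893353197568, 68719476736), (863610339328, 863610339328)] :=
  covD_split 0 (by decide +kernel) D3_c0_t25 D3_c0_t26

theorem D3_c0_t23 : CovD 1 gD3 [(20301479936, 4132438016), (893353197568, 68719476736), (863610339328, 863610339328)] :=
  covD_split 0 (by decide +kernel) D3_c0_t24 D3_c0_t27

theorem D3_c0_t29 : CovD 1 gD3 [(18235260928, 2066219008), (1030792151040, 68719476736), (863610339328, 863610339328)] :=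
  covD_split 0 (by decide +kernel) D3_c0_t30 D3_c0_t31

theorem D3_c0_t28 : CovD 1 gD3 [(20301479936, 4132438016), (1030792151040, 68719476736), (863610339328, 863610339328)] :=
  covD_split 0 (by decide +kernel) D3_c0_t29 D3_c0_t32

theorem D3_c0_t22 : CovD 1 gD3 [(20301479936, 4132438016), (962072674304, 137438953472), (863610339328, 863610339328)] :=
  covD_split 1 (by decide +kernel) D3_c0_t23 D3_c0_t28

theorem D3_c0_t12 : CovD 1 gD3 [(20301479936, 4132438016), (824633720832, 274877906944), (863610339328, 863610339328)] :=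
  covD_split 1 (by decide +kernel) D3_c0_t13 D3_c0_t22

theorem D3_c0 : CovD 1 gD3 [(20301479936, 4132438016), (549755813888, 549755813888), (863610339328, 863610339328)] :=
  covD_split 1 (by decide +kernel) D3_c0_t1 D3_c0_t12

end Pool.Agent.helper14.NS.Q45e
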