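import Pool.Agent.helper14.NS.Q45e.PN4

/-!
Generated: certificates.
-/

namespace Pool.Agent.helper14.NS.Q45e

open Pool.Agent.helper31.IA (Z)
open Pool.Agent.helper31.IX (Op XOps runX Cov CovD cov_split covD_split)
open Pool.Agent.helper31.IC (TD)
open Pool.Agent.helper63.RG (reloc)
open Pool.Agent.helper63.NF hiding TD
open Pool.Agent.helper4.NS
open Pool.Agent.helper14.CF (xE covD_E)
open Pool.Agent.helper14.NR (share)

mutual
theorem A4_c0_t5 : CovD 1 gA4 [(18235260928, 2066219008), (68719476736, 68719476736), (2199023255552, 2199023255552)] :=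
  covD_E kA4_eq (.n 2 (.n 1 (.n 2 (.n 2 (.l 0) (.l 0)) (.n 2 (.l 0) (.l 0))) (.n 2 (.n 2 (.l 0) (.l 0)) (.n 2 (.l 0) (.l 0)))) (.n 2 (.n 0 (.n 2 (.l 0) (.l 0)) (.n 0 (.l 0) (.l 0))) (.n 2 (.l 0) (.l 0))))
    [(18235260928, 2066219008), (68719476736, 68719476736), (2199023255552, 2199023255552)] rfl (by decide +kernel)
theorem A4_c0_t6 : CovD 1 gA4 [(18235260928, 2066219008), (206158430208, 68719476736), (2199023255552, 2199023255552)] :=
  covD_E kA4_eq (.n 2 (.n 2 (.n 2 (.l 0) (.l 0)) (.n 0 (.l 0) (.l 0))) (.n 0 (.n 2 (.l 0) (.l 0)) (.n 2 (.l 0) (.l 0))))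
    [(18235260928, 2066219008), (206158430208, 68719476736), (2199023255552, 2199023255552)] rfl (by decide +kernel)
end

mutual
theorem A4_c0_t11 : CovD 1 gA4 [(18235260928, 2066219008), (68719476736, 68719476736), (4672924418048, 274877906944)] :=
  covD_E kA4_eq (.l 0)
    [(18235260928, 2066219008), (68719476736, 68719476736), (4672924418048, 274877906944)] rfl (by decide +kernel)
theorem A4_c0_t12 : CovD 1 gA4 [(18235260928, 2066219008), (68719476736, 68719476736), (5222680231936, 274877906944)] :=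
  covD_E kA4_eq (.n 0 (.n 0 (.n 0 (.n 2 (.n 0 (.l 0) (.l 0)) (.l 1)) (.n 2 (.l 0) (.n 0 (.l 1) (.l 1)))) (.n 2 (.l 0) (.n 1 (.l 1) (.n 2 (.l 0) (.l 1))))) (.n 2 (.l 0) (.n 2 (.n 0 (.l 0) (.l 0)) (.n 1 (.l 1) (.n 0 (.l 0) (.l 0))))))
    [(18235260928, 2066219008), (68719476736, 68719476736), (5222680231936, 274877906944)] rfl (by decide +kernel)
end

mutual
theorem A4_c0_t13 : CovD 1 gA4 [(18235260928, 2066219008), (206158430208, 68719476736), (4947802324992, 549755813888)] :=
  covD_E kA4_eq (.n 2 (.l 0) (.n 0 (.n 2 (.l 0) (.n 0 (.n 1 (.n 2 (.l 0) (.l 1)) (.l 0)) (.l 0))) (.l 0)))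
    [(18235260928, 2066219008), (206158430208, 68719476736), (4947802324992, 549755813888)] rfl (by decide +kernel)
theorem A4_c0_t15 : CovD 1 gA4 [(17202151424, 1033109504), (137438953472, 137438953472), (6047313952768, 549755813888)] :=
  covD_E kA4_eq (.n 2 (.n 1 (.l 1) (.n 2 (.n 1 (.l 1) (.n 0 (.l 1) (.n 1 (.l 1) (.l 0)))) (.l 1))) (.l 1))
    [(17202151424, 1033109504), (137438953472, 137438953472), (6047313952768, 549755813888)] rfl (by decide +kernel)
end

mutual
theorem A4_c0_t16 : CovD 1 gA4 [(19268370432, 1033109504), (137438953472, 137438953472), (6047313952768, 549755813888)] :=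
  covD_E kA4_eq (.n 2 (.n 0 (.n 1 (.l 1) (.n 2 (.n 1 (.n 0 (.l 1) (.l 1)) (.l 0)) (.l 1))) (.n 1 (.n 0 (.l 1) (.l 1)) (.n 2 (.l 0) (.l 1)))) (.l 1))
    [(19268370432, 1033109504), (137438953472, 137438953472), (6047313952768, 549755813888)] rfl (by decide +kernel)
theorem A4_c0_t17 : CovD 1 gA4 [(18235260928, 2066219008), (137438953472, 137438953472), (7696581394432, 1099511627776)] :=
  covD_E kA4_eq (.n 2 (.n 0 (.l 1) (.l 1)) (.l 1))
    [(18235260928, 2066219008), (137438953472, 137438953472), (7696581394432, 1099511627776)] rfl (by decide +kernel)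
end

mutual
theorem A4_c0_t20 : CovD 1 gA4 [(18235260928, 2066219008), (343597383680, 68719476736), (2199023255552, 2199023255552)] :=
  covD_E kA4_eq (.n 2 (.n 2 (.l 0) (.l 0)) (.n 2 (.l 0) (.n 0 (.l 0) (.l 0))))
    [(18235260928, 2066219008), (343597383680, 68719476736), (2199023255552, 2199023255552)] rfl (by decide +kernel)
theorem A4_c0_t23 : CovD 1 gA4 [(17202151424, 1033109504), (343597383680, 68719476736), (5497558138880, 1099511627776)] :=
  covD_E kA4_eq (.n 2 (.l 0) (.n 0 (.n 2 (.n 2 (.l 0) (.n 1 (.l 1) (.n 0 (.l 0) (.l 0)))) (.l 1)) (.n 2 (.n 1 (.n 2 (.l 0) (.l 1)) (.l 0)) (.l 1))))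
    [(17202151424, 1033109504), (343597383680, 68719476736), (5497558138880, 1099511627776)] rfl (by decide +kernel)
end

mutual
theorem A4_c0_t24 : CovD 1 gA4 [(19268370432, 1033109504), (343597383680, 68719476736), (5497558138880, 1099511627776)] :=
  covD_E kA4_eq (.n 2 (.l 0) (.n 2 (.n 0 (.n 0 (.l 0) (.l 0)) (.l 0)) (.n 1 (.l 1) (.n 2 (.n 0 (.l 0) (.l 0)) (.l 1)))))
    [(19268370432, 1033109504), (343597383680, 68719476736), (5497558138880, 1099511627776)] rfl (by decide +kernel)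
theorem A4_c0_t25 : CovD 1 gA4 [(18235260928, 2066219008), (343597383680, 68719476736), (7696581394432, 1099511627776)] :=
  covD_E kA4_eq (.n 2 (.n 0 (.l 1) (.l 1)) (.l 1))
    [(18235260928, 2066219008), (343597383680, 68719476736), (7696581394432, 1099511627776)] rfl (by decide +kernel)
end

mutual
theorem A4_c0_t27 : CovD 1 gA4 [(18235260928, 2066219008), (481036337152, 68719476736), (2199023255552, 2199023255552)] :=
  covD_E kA4_eq (.n 2 (.n 2 (.l 0) (.l 0)) (.n 2 (.l 0) (.n 0 (.l 0) (.l 0))))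
    [(18235260928, 2066219008), (481036337152, 68719476736), (2199023255552, 2199023255552)] rfl (by decide +kernel)
theorem A4_c0_t29 : CovD 1 gA4 [(18235260928, 2066219008), (481036337152, 68719476736), (5497558138880, 1099511627776)] :=
  covD_E kA4_eq (.n 0 (.n 2 (.l 0) (.n 2 (.l 0) (.n 2 (.n 0 (.n 0 (.l 0) (.l 0)) (.l 0)) (.n 1 (.l 1) (.n 0 (.l 0) (.l 0)))))) (.n 2 (.l 0) (.n 0 (.n 0 (.n 2 (.l 0) (.l 0)) (.l 0)) (.l 0))))
    [(18235260928, 2066219008), (481036337152, 68719476736), (5497558138880, 1099511627776)] rfl (by decide +kernel)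
end

mutual
theorem A4_c0_t30 : CovD 1 gA4 [(18235260928, 2066219008), (481036337152, 68719476736), (7696581394432, 1099511627776)] :=
  covD_E kA4_eq (.n 2 (.n 2 (.n 0 (.n 0 (.l 1) (.l 1)) (.n 1 (.l 1) (.n 0 (.l 1) (.l 0)))) (.l 1)) (.l 1))
    [(18235260928, 2066219008), (481036337152, 68719476736), (7696581394432, 1099511627776)] rfl (by decide +kernel)
theorem A4_c0_t34 : CovD 1 gA4 [(18235260928, 2066219008), (618475290624, 68719476736), (2199023255552, 2199023255552)] :=
  covD_E kA4_eq (.n 2 (.n 2 (.l 0) (.l 0)) (.n 2 (.l 0) (.n 0 (.l 0) (.l 0))))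
    [(18235260928, 2066219008), (618475290624, 68719476736), (2199023255552, 2199023255552)] rfl (by decide +kernel)
end

mutual
theorem A4_c0_t35 : CovD 1 gA4 [(18235260928, 2066219008), (618475290624, 68719476736), (6597069766656, 2199023255552)] :=
  covD_E kA4_eq (.n 0 (.n 2 (.n 2 (.l 0) (.l 0)) (.n 2 (.n 2 (.n 1 (.n 2 (.n 0 (.l 0) (.l 0)) (.l 1)) (.l 0)) (.n 0 (.l 1) (.l 1))) (.l 1))) (.n 2 (.n 2 (.l 0) (.l 0)) (.n 2 (.n 2 (.l 0) (.n 1 (.l 1) (.n 0 (.l 0) (.l 0)))) (.l 1))))
    [(18235260928, 2066219008), (618475290624, 68719476736), (6597069766656, 2199023255552)] rfl (by decide +kernel)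
theorem A4_c0_t37 : CovD 1 gA4 [(18235260928, 2066219008), (755914244096, 68719476736), (2199023255552, 2199023255552)] :=
  covD_E kA4_eq (.n 2 (.n 2 (.l 0) (.l 0)) (.n 2 (.l 0) (.n 0 (.l 0) (.l 0))))
    [(18235260928, 2066219008), (755914244096, 68719476736), (2199023255552, 2199023255552)] rfl (by decide +kernel)
end

mutual
theorem A4_c0_t38 : CovD 1 gA4 [(18235260928, 2066219008), (755914244096, 68719476736), (6597069766656, 2199023255552)] :=
  covD_E kA4_eq (.n 0 (.n 2 (.n 2 (.l 0) (.l 0)) (.n 2 (.n 0 (.n 0 (.l 0) (.l 0)) (.l 0)) (.n 2 (.n 1 (.l 1) (.n 0 (.l 0) (.l 0))) (.l 1)))) (.n 2 (.n 2 (.l 0) (.l 0)) (.n 2 (.l 0) (.n 0 (.n 2 (.l 0) (.l 1)) (.n 2 (.l 0) (.l 1))))))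
    [(18235260928, 2066219008), (755914244096, 68719476736), (6597069766656, 2199023255552)] rfl (by decide +kernel)
theorem A4_c0_t40 : CovD 1 gA4 [(18235260928, 2066219008), (893353197568, 68719476736), (4398046511104, 4398046511104)] :=
  covD_E kA4_eq (.n 2 (.n 2 (.n 2 (.l 0) (.l 0)) (.n 2 (.l 0) (.n 0 (.l 0) (.l 0)))) (.n 0 (.n 2 (.n 2 (.l 0) (.l 0)) (.n 2 (.l 0) (.n 0 (.n 0 (.l 0) (.l 0)) (.l 0)))) (.n 2 (.n 1 (.l 0) (.l 0)) (.n 2 (.l 0) (.l 0)))))
    [(18235260928, 2066219008), (893353197568, 68719476736), (4398046511104, 4398046511104)] rfl (by decide +kernel)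
end

mutual
theorem A4_c0_t41 : CovD 1 gA4 [(18235260928, 2066219008), (1030792151040, 68719476736), (4398046511104, 4398046511104)] :=
  covD_E kA4_eq (.n 2 (.n 2 (.n 2 (.l 0) (.l 0)) (.n 2 (.l 0) (.n 0 (.l 0) (.l 0)))) (.n 0 (.n 2 (.n 2 (.l 0) (.l 0)) (.n 2 (.l 0) (.l 0))) (.n 1 (.n 2 (.l 0) (.l 0)) (.n 2 (.l 0) (.l 0)))))
    [(18235260928, 2066219008), (1030792151040, 68719476736), (4398046511104, 4398046511104)] rfl (by decide +kernel)
theorem A4_c0_t45 : CovD 1 gA4 [(22367698944, 2066219008), (137438953472, 137438953472), (2199023255552, 2199023255552)] :=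
  covD_E kA4_eq (.n 1 (.n 2 (.n 2 (.n 2 (.l 0) (.l 0)) (.n 2 (.l 0) (.l 0))) (.n 2 (.n 0 (.l 0) (.l 0)) (.l 0))) (.n 2 (.n 2 (.l 0) (.l 0)) (.n 2 (.l 0) (.l 0))))
    [(22367698944, 2066219008), (137438953472, 137438953472), (2199023255552, 2199023255552)] rfl (by decide +kernel)
end

mutual
theorem A4_c0_t48 : CovD 1 gA4 [(22367698944, 2066219008), (68719476736, 68719476736), (5497558138880, 1099511627776)] :=
  covD_E kA4_eq (.n 2 (.n 0 (.n 0 (.n 2 (.l 0) (.l 0)) (.l 0)) (.l 0)) (.n 2 (.n 0 (.n 1 (.n 0 (.l 1) (.n 0 (.l 1) (.l 1))) (.n 2 (.n 2 (.l 0) (.l 1)) (.l 1))) (.n 0 (.n 2 (.l 0) (.l 1)) (.n 1 (.n 2 (.l 0) (.l 1)) (.l 0)))) (.l 1)))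
    [(22367698944, 2066219008), (68719476736, 68719476736), (5497558138880, 1099511627776)] rfl (by decide +kernel)
theorem A4_c0_t49 : CovD 1 gA4 [(22367698944, 2066219008), (206158430208, 68719476736), (5497558138880, 1099511627776)] :=
  covD_E kA4_eq (.n 2 (.l 0) (.n 0 (.n 2 (.n 2 (.l 0) (.n 0 (.n 1 (.l 1) (.l 0)) (.l 0))) (.n 0 (.l 1) (.l 1))) (.n 2 (.l 0) (.n 2 (.n 0 (.l 1) (.l 0)) (.l 1)))))
    [(22367698944, 2066219008), (206158430208, 68719476736), (5497558138880, 1099511627776)] rfl (by decide +kernel)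
end

mutual
theorem A4_c0_t50 : CovD 1 gA4 [(22367698944, 2066219008), (137438953472, 137438953472), (7696581394432, 1099511627776)] :=
  covD_E kA4_eq (.n 2 (.n 0 (.l 1) (.l 1)) (.l 1))
    [(22367698944, 2066219008), (137438953472, 137438953472), (7696581394432, 1099511627776)] rfl (by decide +kernel)
theorem A4_c0_t53 : CovD 1 gA4 [(22367698944, 2066219008), (343597383680, 68719476736), (2199023255552, 2199023255552)] :=
  covD_E kA4_eq (.n 2 (.n 2 (.l 0) (.l 0)) (.n 2 (.l 0) (.l 0)))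
    [(22367698944, 2066219008), (343597383680, 68719476736), (2199023255552, 2199023255552)] rfl (by decide +kernel)
end

mutual
theorem A4_c0_t54 : CovD 1 gA4 [(22367698944, 2066219008), (343597383680, 68719476736), (6597069766656, 2199023255552)] :=
  covD_E kA4_eq (.n 2 (.n 2 (.l 0) (.n 2 (.l 0) (.n 0 (.n 1 (.n 2 (.l 0) (.l 1)) (.n 0 (.l 0) (.l 0))) (.l 0)))) (.n 2 (.n 2 (.n 0 (.l 1) (.n 0 (.l 1) (.n 1 (.l 1) (.l 0)))) (.l 1)) (.l 1)))
    [(22367698944, 2066219008), (343597383680, 68719476736), (6597069766656, 2199023255552)] rfl (by decide +kernel)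
theorem A4_c0_t55 : CovD 1 gA4 [(22367698944, 2066219008), (481036337152, 68719476736), (4398046511104, 4398046511104)] :=
  covD_E kA4_eq (.n 2 (.n 2 (.n 2 (.l 0) (.l 0)) (.n 2 (.l 0) (.l 0))) (.n 2 (.n 2 (.l 0) (.n 0 (.l 0) (.l 0))) (.n 0 (.n 2 (.n 2 (.n 0 (.n 1 (.l 1) (.l 0)) (.l 0)) (.l 1)) (.l 1)) (.n 2 (.n 2 (.l 0) (.n 0 (.l 1) (.l 0))) (.l 1)))))
    [(22367698944, 2066219008), (481036337152, 68719476736), (4398046511104, 4398046511104)] rfl (by decide +kernel)
end

mutual
theorem A4_c0_t58 : CovD 1 gA4 [(22367698944, 2066219008), (618475290624, 68719476736), (4398046511104, 4398046511104)] :=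
  covD_E kA4_eq (.n 2 (.n 2 (.n 2 (.l 0) (.l 0)) (.n 2 (.l 0) (.l 0))) (.n 2 (.n 2 (.l 0) (.l 0)) (.n 0 (.n 2 (.n 2 (.l 0) (.l 0)) (.n 1 (.l 1) (.n 2 (.l 0) (.l 1)))) (.n 2 (.l 0) (.n 2 (.l 0) (.l 1))))))
    [(22367698944, 2066219008), (618475290624, 68719476736), (4398046511104, 4398046511104)] rfl (by decide +kernel)
theorem A4_c0_t59 : CovD 1 gA4 [(22367698944, 2066219008), (755914244096, 68719476736), (4398046511104, 4398046511104)] :=
  covD_E kA4_eq (.n 2 (.n 2 (.n 2 (.l 0) (.l 0)) (.n 2 (.l 0) (.l 0))) (.n 2 (.n 2 (.l 0) (.l 0)) (.n 2 (.l 0) (.n 0 (.n 2 (.l 0) (.l 0)) (.l 0)))))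
    [(22367698944, 2066219008), (755914244096, 68719476736), (4398046511104, 4398046511104)] rfl (by decide +kernel)
end

mutual
theorem A4_c0_t60 : CovD 1 gA4 [(22367698944, 2066219008), (962072674304, 137438953472), (4398046511104, 4398046511104)] :=
  covD_E kA4_eq (.n 1 (.n 2 (.n 2 (.n 2 (.l 0) (.l 0)) (.n 2 (.l 0) (.l 0))) (.n 2 (.n 2 (.l 0) (.l 0)) (.n 2 (.l 0) (.l 0)))) (.n 2 (.n 2 (.n 1 (.l 0) (.l 0)) (.n 2 (.l 0) (.l 0))) (.n 2 (.n 2 (.l 0) (.l 0)) (.n 2 (.l 0) (.l 0)))))
    [(22367698944, 2066219008), (962072674304, 137438953472), (4398046511104, 4398046511104)] rfl (by decide +kernel)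
theorem B4_c0_t2 : CovD 1 gB4 [(18235260928, 2066219008), (274877906944, 274877906944), (68719476736, 68719476736)] :=
  covD_E kB4_eq (.n 2 (.n 2 (.n 2 (.n 2 (.l 1) (.l 1)) (.n 2 (.l 1) (.l 1))) (.n 2 (.n 2 (.l 1) (.l 1)) (.n 0 (.l 1) (.l 1)))) (.n 2 (.n 2 (.n 0 (.l 1) (.l 1)) (.l 1)) (.n 2 (.l 1) (.n 0 (.l 1) (.l 1)))))
    [(18235260928, 2066219008), (274877906944, 274877906944), (68719476736, 68719476736)] rfl (by decide +kernel)
end

mutual
theorem B4_c0_t4 : CovD 1 gB4 [(18235260928, 2066219008), (824633720832, 274877906944), (34359738368, 34359738368)] :=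
  covD_E kB4_eq (.n 2 (.n 2 (.n 2 (.l 1) (.l 1)) (.n 2 (.l 1) (.l 1))) (.n 2 (.n 2 (.l 1) (.l 1)) (.n 0 (.l 1) (.l 1))))
    [(18235260928, 2066219008), (824633720832, 274877906944), (34359738368, 34359738368)] rfl (by decide +kernel)
theorem B4_c0_t6 : CovD 1 gB4 [(18235260928, 2066219008), (824633720832, 274877906944), (85899345920, 17179869184)] :=
  covD_E kB4_eq (.n 0 (.n 2 (.l 1) (.n 0 (.l 1) (.l 1))) (.n 2 (.l 1) (.n 2 (.l 1) (.l 1))))
    [(18235260928, 2066219008), (824633720832, 274877906944), (85899345920, 17179869184)] rfl (by decide +kernel)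
end

mutual
theorem B4_c0_t8 : CovD 1 gB4 [(18235260928, 2066219008), (687194767360, 137438953472), (120259084288, 17179869184)] :=
  covD_E kB4_eq (.n 2 (.l 1) (.n 0 (.l 1) (.l 1)))
    [(18235260928, 2066219008), (687194767360, 137438953472), (120259084288, 17179869184)] rfl (by decide +kernel)
theorem B4_c0_t10 : CovD 1 gB4 [(17202151424, 1033109504), (962072674304, 137438953472), (120259084288, 17179869184)] :=
  covD_E kB4_eq (.n 1 (.n 2 (.l 1) (.n 1 (.l 1) (.n 2 (.l 1) (.l 0)))) (.n 2 (.n 1 (.l 1) (.n 2 (.l 1) (.l 0))) (.n 0 (.l 0) (.l 0))))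
    [(17202151424, 1033109504), (962072674304, 137438953472), (120259084288, 17179869184)] rfl (by decide +kernel)
end

mutual
theorem B4_c0_t11 : CovD 1 gB4 [(19268370432, 1033109504), (962072674304, 137438953472), (120259084288, 17179869184)] :=
  covD_E kB4_eq (.n 1 (.n 2 (.l 1) (.n 2 (.n 0 (.l 1) (.l 0)) (.l 0))) (.n 2 (.n 2 (.n 0 (.l 1) (.l 0)) (.l 0)) (.l 0)))
    [(19268370432, 1033109504), (962072674304, 137438953472), (120259084288, 17179869184)] rfl (by decide +kernel)
theorem B4_c0_t13 : CovD 1 gB4 [(22367698944, 2066219008), (274877906944, 274877906944), (68719476736, 68719476736)] :=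
  covD_E kB4_eq (.n 2 (.n 2 (.n 2 (.n 2 (.l 1) (.l 1)) (.n 0 (.l 1) (.l 1))) (.n 2 (.n 0 (.l 1) (.l 1)) (.l 1))) (.n 2 (.n 2 (.l 1) (.l 1)) (.n 1 (.l 1) (.n 2 (.l 1) (.l 1)))))
    [(22367698944, 2066219008), (274877906944, 274877906944), (68719476736, 68719476736)] rfl (by decide +kernel)
end

mutual
theorem B4_c0_t15 : CovD 1 gB4 [(22367698944, 2066219008), (824633720832, 274877906944), (34359738368, 34359738368)] :=
  covD_E kB4_eq (.n 2 (.n 2 (.n 2 (.l 1) (.l 1)) (.n 0 (.l 1) (.l 1))) (.n 0 (.n 2 (.l 1) (.l 1)) (.n 2 (.l 1) (.l 1))))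
    [(22367698944, 2066219008), (824633720832, 274877906944), (34359738368, 34359738368)] rfl (by decide +kernel)
theorem B4_c0_t17 : CovD 1 gB4 [(22367698944, 2066219008), (687194767360, 137438953472), (103079215104, 34359738368)] :=
  covD_E kB4_eq (.n 2 (.n 2 (.l 1) (.l 1)) (.n 0 (.n 2 (.l 1) (.n 0 (.l 1) (.n 2 (.l 1) (.l 1)))) (.n 2 (.l 1) (.n 1 (.l 1) (.n 2 (.l 1) (.l 0))))))
    [(22367698944, 2066219008), (687194767360, 137438953472), (103079215104, 34359738368)] rfl (by decide +kernel)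
end

mutual
theorem B4_c0_t19 : CovD 1 gB4 [(22367698944, 2066219008), (962072674304, 137438953472), (85899345920, 17179869184)] :=
  covD_E kB4_eq (.n 2 (.n 0 (.l 1) (.l 1)) (.n 2 (.n 0 (.l 1) (.l 1)) (.n 1 (.l 1) (.n 0 (.l 1) (.l 0)))))
    [(22367698944, 2066219008), (962072674304, 137438953472), (85899345920, 17179869184)] rfl (by decide +kernel)
theorem B4_c0_t20 : CovD 1 gB4 [(22367698944, 2066219008), (962072674304, 137438953472), (120259084288, 17179869184)] :=
  covD_E kB4_eq (.n 0 (.n 1 (.n 2 (.n 2 (.l 1) (.l 1)) (.n 0 (.l 0) (.l 0))) (.n 2 (.l 0) (.l 0))) (.n 0 (.n 2 (.n 2 (.l 0) (.l 0)) (.l 0)) (.n 2 (.l 0) (.l 0))))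
    [(22367698944, 2066219008), (962072674304, 137438953472), (120259084288, 17179869184)] rfl (by decide +kernel)
end

theorem A4_c0_t4 : CovD 1 gA4 [(18235260928, 2066219008), (137438953472, 137438953472), (2199023255552, 2199023255552)] :=
  covD_split 1 (by decide +kernel) A4_c0_t5 A4_c0_t6

theorem A4_c0_t10 : CovD 1 gA4 [(18235260928, 2066219008), (68719476736, 68719476736), (4947802324992, 549755813888)] :=
  covD_split 2 (by decide +kernel) A4_c0_t11 A4_c0_t12

theorem A4_c0_t9 : CovD 1 gA4 [(18235260928, 2066219008), (137438953472, 137438953472), (4947802324992, 549755813888)] :=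
  covD_split 1 (by decide +kernel) A4_c0_t10 A4_c0_t13

theorem A4_c0_t14 : CovD 1 gA4 [(18235260928, 2066219008), (137438953472, 137438953472), (6047313952768, 549755813888)] :=
  covD_split 0 (by decide +kernel) A4_c0_t15 A4_c0_t16

theorem A4_c0_t8 : CovD 1 gA4 [(18235260928, 2066219008), (137438953472, 137438953472), (5497558138880, 1099511627776)] :=
  covD_split 2 (by decide +kernel) A4_c0_t9 A4_c0_t14

theorem A4_c0_t7 : CovD 1 gA4 [(18235260928, 2066219008), (137438953472, 137438953472), (6597069766656, 2199023255552)] :=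
  covD_split 2 (by decide +kernel) A4_c0_t8 A4_c0_t17

theorem A4_c0_t3 : CovD 1 gA4 [(18235260928, 2066219008), (137438953472, 137438953472), (4398046511104, 4398046511104)] :=
  covD_split 2 (by decide +kernel) A4_c0_t4 A4_c0_t7

theorem A4_c0_t22 : CovD 1 gA4 [(18235260928, 2066219008), (343597383680, 68719476736), (5497558138880, 1099511627776)] :=
  covD_split 0 (by decide +kernel) A4_c0_t23 A4_c0_t24

theorem A4_c0_t21 : CovD 1 gA4 [(18235260928, 2066219008), (343597383680, 68719476736), (6597069766656, 2199023255552)] :=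
  covD_split 2 (by decide +kernel) A4_c0_t22 A4_c0_t25

theorem A4_c0_t19 : CovD 1 gA4 [(18235260928, 2066219008), (343597383680, 68719476736), (4398046511104, 4398046511104)] :=
  covD_split 2 (by decide +kernel) A4_c0_t20 A4_c0_t21

theorem A4_c0_t28 : CovD 1 gA4 [(18235260928, 2066219008), (481036337152, 68719476736), (6597069766656, 2199023255552)] :=
  covD_split 2 (by decide +kernel) A4_c0_t29 A4_c0_t30

theorem A4_c0_t26 : CovD 1 gA4 [(18235260928, 2066219008), (481036337152, 68719476736), (4398046511104, 4398046511104)] :=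
  covD_split 2 (by decide +kernel) A4_c0_t27 A4_c0_t28

theorem A4_c0_t18 : CovD 1 gA4 [(18235260928, 2066219008), (412316860416, 137438953472), (4398046511104, 4398046511104)] :=
  covD_split 1 (by decide +kernel) A4_c0_t19 A4_c0_t26

theorem A4_c0_t2 : CovD 1 gA4 [(18235260928, 2066219008), (274877906944, 274877906944), (4398046511104, 4398046511104)] :=
  covD_split 1 (by decide +kernel) A4_c0_t3 A4_c0_t18

theorem A4_c0_t33 : CovD 1 gA4 [(18235260928, 2066219008), (618475290624, 68719476736), (4398046511104, 4398046511104)] :=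
  covD_split 2 (by decide +kernel) A4_c0_t34 A4_c0_t35

theorem A4_c0_t36 : CovD 1 gA4 [(18235260928, 2066219008), (755914244096, 68719476736), (4398046511104, 4398046511104)] :=
  covD_split 2 (by decide +kernel) A4_c0_t37 A4_c0_t38

theorem A4_c0_t32 : CovD 1 gA4 [(18235260928, 2066219008), (687194767360, 137438953472), (4398046511104, 4398046511104)] :=
  covD_split 1 (by decide +kernel) A4_c0_t33 A4_c0_t36

theorem A4_c0_t39 : CovD 1 gA4 [(18235260928, 2066219008), (962072674304, 137438953472), (4398046511104, 4398046511104)] :=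
  covD_split 1 (by decide +kernel) A4_c0_t40 A4_c0_t41

theorem A4_c0_t31 : CovD 1 gA4 [(18235260928, 2066219008), (824633720832, 274877906944), (4398046511104, 4398046511104)] :=
  covD_split 1 (by decide +kernel) A4_c0_t32 A4_c0_t39

theorem A4_c0_t1 : CovD 1 gA4 [(18235260928, 2066219008), (549755813888, 549755813888), (4398046511104, 4398046511104)] :=
  covD_split 1 (by decide +kernel) A4_c0_t2 A4_c0_t31

theorem A4_c0_t47 : CovD 1 gA4 [(22367698944, 2066219008), (137438953472, 137438953472), (5497558138880, 1099511627776)] :=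
  covD_split 1 (by decide +kernel) A4_c0_t48 A4_c0_t49

theorem A4_c0_t46 : CovD 1 gA4 [(22367698944, 2066219008), (137438953472, 137438953472), (6597069766656, 2199023255552)] :=
  covD_split 2 (by decide +kernel) A4_c0_t47 A4_c0_t50

theorem A4_c0_t44 : CovD 1 gA4 [(22367698944, 2066219008), (137438953472, 137438953472), (4398046511104, 4398046511104)] :=
  covD_split 2 (by decide +kernel) A4_c0_t45 A4_c0_t46

theorem A4_c0_t52 : CovD 1 gA4 [(22367698944, 2066219008), (343597383680, 68719476736), (4398046511104, 4398046511104)] :=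
  covD_split 2 (by decide +kernel) A4_c0_t53 A4_c0_t54

theorem A4_c0_t51 : CovD 1 gA4 [(22367698944, 2066219008), (412316860416, 137438953472), (4398046511104, 4398046511104)] :=
  covD_split 1 (by decide +kernel) A4_c0_t52 A4_c0_t55

theorem A4_c0_t43 : CovD 1 gA4 [(22367698944, 2066219008), (274877906944, 274877906944), (4398046511104, 4398046511104)] :=
  covD_split 1 (by decide +kernel) A4_c0_t44 A4_c0_t51

theorem A4_c0_t57 : CovD 1 gA4 [(22367698944, 2066219008), (687194767360, 137438953472), (4398046511104, 4398046511104)] :=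
  covD_split 1 (by decide +kernel) A4_c0_t58 A4_c0_t59

theorem A4_c0_t56 : CovD 1 gA4 [(22367698944, 2066219008), (824633720832, 274877906944), (4398046511104, 4398046511104)] :=
  covD_split 1 (by decide +kernel) A4_c0_t57 A4_c0_t60

theorem A4_c0_t42 : CovD 1 gA4 [(22367698944, 2066219008), (549755813888, 549755813888), (4398046511104, 4398046511104)] :=
  covD_split 1 (by decide +kernel) A4_c0_t43 A4_c0_t56

theorem A4_c0 : CovD 1 gA4 [(20301479936, 4132438016), (549755813888, 549755813888), (4398046511104, 4398046511104)] :=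
  covD_split 0 (by decide +kernel) A4_c0_t1 A4_c0_t42

theorem B4_c0_t9 : CovD 1 gB4 [(18235260928, 2066219008), (962072674304, 137438953472), (120259084288, 17179869184)] :=
  covD_split 0 (by decide +kernel) B4_c0_t10 B4_c0_t11

theorem B4_c0_t7 : CovD 1 gB4 [(18235260928, 2066219008), (824633720832, 274877906944), (120259084288, 17179869184)] :=
  covD_split 1 (by decide +kernel) B4_c0_t8 B4_c0_t9

theorem B4_c0_t5 : CovD 1 gB4 [(18235260928, 2066219008), (824633720832, 274877906944), (103079215104, 34359738368)] :=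
  covD_split 2 (by decide +kernel) B4_c0_t6 B4_c0_t7

theorem B4_c0_t3 : CovD 1 gB4 [(18235260928, 2066219008), (824633720832, 274877906944), (68719476736, 68719476736)] :=
  covD_split 2 (by decide +kernel) B4_c0_t4 B4_c0_t5

theorem B4_c0_t1 : CovD 1 gB4 [(18235260928, 2066219008), (549755813888, 549755813888), (68719476736, 68719476736)] :=
  covD_split 1 (by decide +kernel) B4_c0_t2 B4_c0_t3

theorem B4_c0_t18 : CovD 1 gB4 [(22367698944, 2066219008), (962072674304, 137438953472), (103079215104, 34359738368)] :=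
  covD_split 2 (by decide +kernel) B4_c0_t19 B4_c0_t20

theorem B4_c0_t16 : CovD 1 gB4 [(22367698944, 2066219008), (824633720832, 274877906944), (103079215104, 34359738368)] :=
  covD_split 1 (by decide +kernel) B4_c0_t17 B4_c0_t18

theorem B4_c0_t14 : CovD 1 gB4 [(22367698944, 2066219008), (824633720832, 274877906944), (68719476736, 68719476736)] :=
  covD_split 2 (by decide +kernel) B4_c0_t15 B4_c0_t16

theorem B4_c0_t12 : CovD 1 gB4 [(22367698944, 2066219008), (549755813888, 549755813888), (68719476736, 68719476736)] :=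
  covD_split 1 (by decide +kernel) B4_c0_t13 B4_c0_t14

theorem B4_c0 : CovD 1 gB4 [(20301479936, 4132438016), (549755813888, 549755813888), (68719476736, 68719476736)] :=
  covD_split 0 (by decide +kernel) B4_c0_t1 B4_c0_t12

end Pool.Agent.helper14.NS.Q45e
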