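import Pool.Agent.helper14.NS.Q45e.Tab
import Pool.Agent.helper14.NR.Share

/-!
Generated: programs and compiled forms.
-/

namespace Pool.Agent.helper14.NS.Q45e

open Pool.Agent.helper31.IA (Z)
open Pool.Agent.helper31.IX (Op XOps runX Cov CovD cov_split covD_split)
open Pool.Agent.helper31.IC (TD)
open Pool.Agent.helper63.RG (reloc)
open Pool.Agent.helper63.NF hiding TD
open Pool.Agent.helper4.NS
open Pool.Agent.helper14.CF (xE covD_E)
open Pool.Agent.helper14.NR (share)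

def p2_1 : List Op := [
  .const ⟨1099511627776, 0, 0, 0⟩,
  .mul 1 2,
  .scale ⟨2199023255552, 0, 0, 0⟩ 0,
  .exp 1,
  .neg 2,
  .exp 0,
  .mul 2 2,
  .mul 1 1,
  .mul 0 0,
  .add 2 1,
  .scale ⟨549755813888, 0, 0, 0⟩ 0,
  .scale ⟨2199023255552, 0, 0, 0⟩ 12,
  .mul 10 10,
  .lt 0 68719476736,
  .scale ⟨9162596898, 0, 0, 0⟩ 0,
  .const ⟨183251937962, 0, 0, 0⟩,
  .add 1 0,
  .mul 0 3,
  .const ⟨1099511627776, 0, 0, 0⟩,
  .add 1 0,
  .const ⟨65536, 0, 0, 0⟩,
  .rball 1 0,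
  .mul 9 0,
  .add 18 16,
  .scale ⟨549755813888, 0, 0, 0⟩ 0,
  .mul 2 0,
  .mul 3 3,
  .mul 26 0,
  .mul 2 2,
  .mul 28 0,
  .neg 17,
  .exp 0,
  .add 0 30,
  .pos 0,
  .log 0,
  .const ⟨20300431360, 0, 0, 0⟩,
  .sub 34 0,
  .const ⟨3680786972672, 0, 0, 0⟩,
  .sub 37 0,
  .mul 0 0,
  .mul 0 1,
  .mul 4 2,
  .mul 5 5,
  .scale ⟨20724276224, 0, 0, 0⟩ 4,
  .scale ⟨0, 188471744, 0, 0⟩ 4,
  .add 1 0,
  .scale ⟨0, 27016384, 0, 0⟩ 5,
  .add 1 0,
  .scale ⟨0, 73760128512, 0, 0⟩ 11,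
  .add 1 0,
  .scale ⟨0, 172179844672, 0, 0⟩ 8,
  .add 1 0,
  .scale ⟨6955253827136, 0, 0, 0⟩ 9,
  .add 1 0,
  .const ⟨568878462208, 0, 0, 0⟩,
  .add 1 0,
  .scale ⟨0, 1585034624, 0, 0⟩ 17,
  .scale ⟨68910976, 0, 0, 0⟩ 17,
  .add 1 0,
  .scale ⟨141493681536, 0, 0, 0⟩ 22,
  .add 1 0,
  .scale ⟨36988209088, 0, 0, 0⟩ 19,
  .add 1 0,
  .const ⟨831810752, 0, 0, 0⟩,
  .add 1 0,
  .scale ⟨41917376, 0, 0, 0⟩ 26,
  .scale ⟨0, 2117632, 0, 0⟩ 26,
  .add 1 0,
  .scale ⟨0, 14088356096, 0, 0⟩ 31,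
  .add 1 0,
  .const ⟨0, 384672000, 0, 0⟩,
  .add 1 0,
  .scale ⟨1321536, 0, 0, 0⟩ 33,
  .scale ⟨299147136, 0, 0, 0⟩ 36,
  .add 1 0,
  .const ⟨45627584, 0, 0, 0⟩,
  .add 1 0,
  .scale ⟨0, 68992, 0, 0⟩ 38,
  .const ⟨0, 2955968, 0, 0⟩,
  .add 1 0,
  .mul 78 80,
  .add 0 68,
  .pos 0,
  .inv 0,
  .mul 73 0,
  .sub 84 57,
  .add 75 2,
  .mul 1 0,
  .mul 3 0,
  .mul 78 61,
  .scale ⟨2199023255552, 0, 0, 0⟩ 0,
  .add 2 0,
  .scale ⟨0, 67705864454144, 0, 0⟩ 54,
  .const ⟨0, 2500207837184, 0, 0⟩,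
  .add 1 0,
  .sub 3 0,
  .pos 0,
  .inv 0,
  .scale ⟨31362867265536, 0, 0, 0⟩ 0,
  .add 2 0,
  .pos 0,
  .inv 0,
  .scale ⟨0, 92484356608, 0, 0⟩ 60,
  .scale ⟨0, 9253067868544, 0, 0⟩ 63,
  .add 1 0,
  .const ⟨0, 244682256384, 0, 0⟩,
  .add 1 0,
  .scale ⟨0, 416015052480, 0, 0⟩ 65,
  .scale ⟨62483878609088, 0, 0, 0⟩ 68,
  .add 1 0,
  .const ⟨691652083072, 0, 0, 0⟩,
  .add 1 0,
  .mul 13 0,
  .add 6 0,
  .mul 0 12,
  .scale ⟨0, 1216, 0, 0⟩ 21,
  .const ⟨97408, 0, 0, 0⟩,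
  .add 1 0,
  .mul 24 0,
  .add 0 36,
  .mul 26 0,
  .add 0 41,
  .mul 28 0,
  .add 0 48,
  .mul 30 0,
  .add 0 57,
  .mul 32 0,
  .add 12 68,
  .add 1 0,
  .mul 38 0,
  .add 0 113,
  .neg 0,
  .exp 0,
  .add 0 127,
  .pos 0,
  .log 0,
  .add 132 105,
  .const ⟨32985317376, 0, 0, 0⟩,
  .scale ⟨549755813888, 0, 0, 0⟩ 134,
  .add 0 132,
  .pos 0,
  .inv 0,
  .scale ⟨2199023255552, 0, 0, 0⟩ 3,
  .mul 5 0,
  .mul 0 2,
  .mul 0 141,
  .sub 138 0,
  .pos 0,
  .log 0,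
  .mul 13 2,
  .add 0 141,
  .pos 0,
  .log 0,
  .sub 0 3,
  .add 19 0,
  .sub 16 113,
  .scale ⟨2199023255552, 0, 0, 0⟩ 0,
  .add 23 0,
  .add 8 5,
  .sub 1 0,
  .mul 151 5,
  .scale ⟨549755813888, 0, 0, 0⟩ 0,
  .mul 0 0,
  .lt 0 68719476736,
  .scale ⟨9162596898, 0, 0, 0⟩ 0,
  .const ⟨183251937962, 0, 0, 0⟩,
  .add 1 0,
  .mul 0 3,
  .const ⟨1099511627776, 0, 0, 0⟩,
  .add 1 0,
  .const ⟨65536, 0, 0, 0⟩,
  .rball 1 0,
  .exp 9,
  .mul 0 1,
  .mul 18 0,
  .pos 165,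
  .inv 165,
  .mul 166 15,
  .exp 0,
  .const ⟨1099511627776, 0, 0, 0⟩,
  .sub 1 0,
  .mul 0 4,
  .mul 160 173,
  .add 0 143,
  .mul 92 0,
  .mul 174 0,
  .add 0 164,
  .pos 0,
  .inv 0,
  .add 88 150,
  .mul 13 0,
  .mul 5 5,
  .scale ⟨2199023255552, 0, 0, 0⟩ 0,
  .sub 2 0,
  .mul 155 155,
  .scale ⟨549755813888, 0, 0, 0⟩ 0,
  .sub 2 0,
  .mul 185 20,
  .const ⟨2199023255552, 0, 0, 0⟩,
  .add 1 0,
  .mul 17 0,
  .mul 162 0,
  .add 5 0,
  .mul 191 14,
  .mul 0 0,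
  .mul 0 2,
  .add 0 193,
  .pos 0,
  .log 0,
  .scale ⟨549755813888, 0, 0, 0⟩ 0,
  .exp 0,
  .add 0 197,
  .pos 0,
  .mul 8 22,
  .inv 1,
  .mul 1 0,
  .mul 202 0,
  .add 29 0,
  .pos 73,
  .inv 73,
  .mul 197 125,
  .mul 1 0,
  .mul 0 5,
  .mul 208 0,
  .add 0 208,
  .pos 0,
  .mul 34 202,
  .pos 0,
  .log 0,
  .scale ⟨549755813888, 0, 0, 0⟩ 16,
  .add 1 0,
  .mul 0 48,
  .scale ⟨50540904448, 0, 0, 0⟩ 178,
  .scale ⟨0, 6880231424, 0, 0⟩ 178,
  .add 1 0,
  .scale ⟨1235288064, 0, 0, 0⟩ 179,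
  .add 1 0,
  .scale ⟨6022018367488, 0, 0, 0⟩ 185,
  .add 1 0,
  .scale ⟨0, 310254501888, 0, 0⟩ 182,
  .add 1 0,
  .const ⟨488400224256, 0, 0, 0⟩,
  .add 1 0,
  .scale ⟨2199023255552, 0, 0, 0⟩ 223,
  .exp 0,
  .pos 2,
  .mul 20 0,
  .scale ⟨2199023255552, 0, 0, 0⟩ 0,
  .inv 20,
  .mul 24 0,
  .inv 6,
  .mul 5 0,
  .mul 2 0,
  .mul 5 0,
  .lt 0 1099510579200,
  .const ⟨15985868275712, 0, 0, 0⟩,
  .add 209 0,
  .pos 0,
  .mul 34 34,
  .sub 0 211,
  .inv 2,
  .mul 1 0,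
  .lt 0 1099510579200,
  .scale ⟨2228224, 0, 0, 0⟩ 153,
  .const ⟨0, 72482816, 0, 0⟩,
  .add 1 0,
  .mul 156 0,
  .scale ⟨200212480, 0, 0, 0⟩ 209,
  .scale ⟨634688372736, 0, 0, 0⟩ 212,
  .add 1 0,
  .const ⟨10809180160, 0, 0, 0⟩,
  .add 1 0,
  .add 5 0,
  .mul 163 0,
  .scale ⟨11386028032, 0, 0, 0⟩ 216,
  .scale ⟨0, 1037828096, 0, 0⟩ 216,
  .add 1 0,
  .scale ⟨1713458249728, 0, 0, 0⟩ 221,
  .add 1 0,
  .const ⟨1126051741696, 0, 0, 0⟩,
  .add 1 0,
  .add 7 0,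
  .scale ⟨1099511627776, 0, 0, 0⟩ 129,
  .pos 0,
  .inv 0,
  .mul 129 58,
  .mul 0 1,
  .scale ⟨549755813888, 0, 0, 0⟩ 0,
  .mul 266 62,
  .add 0 256,
  .pos 0,
  .inv 0,
  .mul 261 0,
  .sub 66 245,
  .add 263 2,
  .mul 1 0,
  .mul 3 0,
  .mul 266 249,
  .scale ⟨2199023255552, 0, 0, 0⟩ 0,
  .add 2 0,
  .scale ⟨0, 67705864454144, 0, 0⟩ 242,
  .const ⟨0, 2500207837184, 0, 0⟩,
  .add 1 0,
  .sub 3 0,
  .pos 0,
  .inv 0,
  .scale ⟨31362867265536, 0, 0, 0⟩ 0,
  .add 2 0,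
  .pos 0,
  .inv 0,
  .scale ⟨0, 92484356608, 0, 0⟩ 248,
  .scale ⟨0, 9253067868544, 0, 0⟩ 251,
  .add 1 0,
  .const ⟨0, 244682256384, 0, 0⟩,
  .add 1 0,
  .scale ⟨0, 416015052480, 0, 0⟩ 253,
  .scale ⟨62483878609088, 0, 0, 0⟩ 256,
  .add 1 0,
  .const ⟨691652083072, 0, 0, 0⟩,
  .add 1 0,
  .mul 13 0,
  .add 6 0,
  .mul 0 12,
  .scale ⟨0, 1216, 0, 0⟩ 21,
  .const ⟨97408, 0, 0, 0⟩,
  .add 1 0,
  .mul 24 0,
  .add 0 224,
  .mul 26 0,
  .add 0 229,
  .mul 28 0,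
  .add 0 236,
  .mul 30 0,
  .add 0 245,
  .mul 32 0,
  .add 12 256,
  .add 1 0,
  .mul 38 0,
  .add 0 301,
  .neg 0,
  .exp 0,
  .add 0 315,
  .pos 0,
  .log 0,
  .scale ⟨329907175424, 0, 0, 0⟩ 114,
  .add 0 318,
  .pos 0,
  .inv 0,
  .const ⟨27267891200, 0, 0, 0⟩,
  .scale ⟨1099511627776, 0, 0, 0⟩ 0,
  .mul 0 60,
  .mul 317 243,
  .mul 0 115,
  .mul 2 0,
  .mul 193 6,
  .mul 1 0,
  .add 204 199,
  .sub 0 12,
  .sub 0 116,
  .exp 0,
  .const ⟨0, 0, 0, 0⟩,
  .mul 73 1,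
  .mul 0 19,
  .mul 0 7,
  .rball 3 0,
  .sub 337 77,
  .mul 342 0,
  .sub 339 7,
  .scale ⟨1099511627776, 0, 0, 0⟩ 0,
  .mul 0 76,
  .mul 82 0,
  .add 4 0,
  .add 0 7,
  .lt 0 1099510579200]

set_option maxRecDepth 1000000 in
noncomputable def c2_1 {α : Type} (cst : Z → α) (add sub mul : α → α → α) (scale : Z → α → α)
    (neg inv exp log : α → α) (ok : α → Bool) (isPos : Nat → α → Bool) (isLt : α → Nat → Bool)
    (ball : Nat → α → α) (rball : α → α → α) : List α → Bool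
  | [x0, x1, x2, x3] =>
  let v0 := cst ⟨1099511627776, 0, 0, 0⟩; ok v0 && (
  let v1 := mul x0 x1; ok v1 && (
  let v2 := scale ⟨2199023255552, 0, 0, 0⟩ v1; ok v2 && (
  let v3 := exp v1; ok v3 && (
  let v4 := neg v1; ok v4 && (
  let v5 := exp v4; ok v5 && (
  let v6 := mul v3 v3; ok v6 && (
  let v7 := mul v5 v5; ok v7 && (
  let v8 := mul v7 v7; ok v8 && (
  let v9 := add v6 v7; ok v9 && (
  let v10 := scale ⟨549755813888, 0, 0, 0⟩ v9; ok v10 && (
  let v11 := scale ⟨2199023255552, 0, 0, 0⟩ x1; ok v11 && (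
  let v12 := mul v1 v1; ok v12 && (
  isLt v12 68719476736 && (
  let v13 := scale ⟨9162596898, 0, 0, 0⟩ v12; ok v13 && (
  let v14 := cst ⟨183251937962, 0, 0, 0⟩; ok v14 && (
  let v15 := add v13 v14; ok v15 && (
  let v16 := mul v15 v12; ok v16 && (
  let v17 := cst ⟨1099511627776, 0, 0, 0⟩; ok v17 && (
  let v18 := add v16 v17; ok v18 && (
  let v19 := cst ⟨65536, 0, 0, 0⟩; ok v19 && (
  let v20 := rball v18 v19; ok v20 && (
  let v21 := mul v11 v20; ok v21 && (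
  let v22 := add v3 v5; ok v22 && (
  let v23 := scale ⟨549755813888, 0, 0, 0⟩ v22; ok v23 && (
  let v24 := mul v21 v23; ok v24 && (
  let v25 := mul v21 v21; ok v25 && (
  let v26 := mul x0 v25; ok v26 && (
  let v27 := mul v24 v24; ok v27 && (
  let v28 := mul x0 v27; ok v28 && (
  let v29 := neg v11; ok v29 && (
  let v30 := exp v29; ok v30 && (
  let v31 := add v30 v0; ok v31 && (
  isPos 3 v31 && (
  let v32 := log v31; ok v32 && (
  let v33 := cst ⟨20300431360, 0, 0, 0⟩; ok v33 && (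
  let v34 := sub x0 v33; ok v34 && (
  let v35 := cst ⟨3680786972672, 0, 0, 0⟩; ok v35 && (
  let v36 := sub x1 v35; ok v36 && (
  let v37 := mul v36 v36; ok v37 && (
  let v38 := mul v37 v36; ok v38 && (
  let v39 := mul v34 v36; ok v39 && (
  let v40 := mul v34 v34; ok v40 && (
  let v41 := scale ⟨20724276224, 0, 0, 0⟩ v36; ok v41 && (
  let v42 := scale ⟨0, 188471744, 0, 0⟩ v37; ok v42 && (
  let v43 := add v41 v42; ok v43 && (
  let v44 := scale ⟨0, 27016384, 0, 0⟩ v38; ok v44 && (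
  let v45 := add v43 v44; ok v45 && (
  let v46 := scale ⟨0, 73760128512, 0, 0⟩ v34; ok v46 && (
  let v47 := add v45 v46; ok v47 && (
  let v48 := scale ⟨0, 172179844672, 0, 0⟩ v39; ok v48 && (
  let v49 := add v47 v48; ok v49 && (
  let v50 := scale ⟨6955253827136, 0, 0, 0⟩ v40; ok v50 && (
  let v51 := add v49 v50; ok v51 && (
  let v52 := cst ⟨568878462208, 0, 0, 0⟩; ok v52 && (
  let v53 := add v51 v52; ok v53 && (
  let v54 := scale ⟨0, 1585034624, 0, 0⟩ v36; ok v54 && (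
  let v55 := scale ⟨68910976, 0, 0, 0⟩ v37; ok v55 && (
  let v56 := add v54 v55; ok v56 && (
  let v57 := scale ⟨141493681536, 0, 0, 0⟩ v34; ok v57 && (
  let v58 := add v56 v57; ok v58 && (
  let v59 := scale ⟨36988209088, 0, 0, 0⟩ v39; ok v59 && (
  let v60 := add v58 v59; ok v60 && (
  let v61 := cst ⟨831810752, 0, 0, 0⟩; ok v61 && (
  let v62 := add v60 v61; ok v62 && (
  let v63 := scale ⟨41917376, 0, 0, 0⟩ v36; ok v63 && (
  let v64 := scale ⟨0, 2117632, 0, 0⟩ v37; ok v64 && (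
  let v65 := add v63 v64; ok v65 && (
  let v66 := scale ⟨0, 14088356096, 0, 0⟩ v34; ok v66 && (
  let v67 := add v65 v66; ok v67 && (
  let v68 := cst ⟨0, 384672000, 0, 0⟩; ok v68 && (
  let v69 := add v67 v68; ok v69 && (
  let v70 := scale ⟨1321536, 0, 0, 0⟩ v36; ok v70 && (
  let v71 := scale ⟨299147136, 0, 0, 0⟩ v34; ok v71 && (
  let v72 := add v70 v71; ok v72 && (
  let v73 := cst ⟨45627584, 0, 0, 0⟩; ok v73 && (
  let v74 := add v72 v73; ok v74 && (
  let v75 := scale ⟨0, 68992, 0, 0⟩ v36; ok v75 && (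
  let v76 := cst ⟨0, 2955968, 0, 0⟩; ok v76 && (
  let v77 := add v75 v76; ok v77 && (
  let v78 := mul x0 x2; ok v78 && (
  let v79 := add v78 v10; ok v79 && (
  isPos 3 v79 && (
  let v80 := inv v79; ok v80 && (
  let v81 := mul v7 v80; ok v81 && (
  let v82 := sub x2 v24; ok v82 && (
  let v83 := add v7 v80; ok v83 && (
  let v84 := mul v82 v83; ok v84 && (
  let v85 := mul v81 v84; ok v85 && (
  let v86 := mul v7 v24; ok v86 && (
  let v87 := scale ⟨2199023255552, 0, 0, 0⟩ v86; ok v87 && (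
  let v88 := add v85 v87; ok v88 && (
  let v89 := scale ⟨0, 67705864454144, 0, 0⟩ v34; ok v89 && (
  let v90 := cst ⟨0, 2500207837184, 0, 0⟩; ok v90 && (
  let v91 := add v89 v90; ok v91 && (
  let v92 := sub v88 v91; ok v92 && (
  isPos 3 v92 && (
  let v93 := inv v92; ok v93 && (
  let v94 := scale ⟨31362867265536, 0, 0, 0⟩ v93; ok v94 && (
  let v95 := add v92 v94; ok v95 && (
  isPos 3 v95 && (
  let v96 := inv v95; ok v96 && (
  let v97 := scale ⟨0, 92484356608, 0, 0⟩ v36; ok v97 && (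
  let v98 := scale ⟨0, 9253067868544, 0, 0⟩ v34; ok v98 && (
  let v99 := add v97 v98; ok v99 && (
  let v100 := cst ⟨0, 244682256384, 0, 0⟩; ok v100 && (
  let v101 := add v99 v100; ok v101 && (
  let v102 := scale ⟨0, 416015052480, 0, 0⟩ v36; ok v102 && (
  let v103 := scale ⟨62483878609088, 0, 0, 0⟩ v34; ok v103 && (
  let v104 := add v102 v103; ok v104 && (
  let v105 := cst ⟨691652083072, 0, 0, 0⟩; ok v105 && (
  let v106 := add v104 v105; ok v106 && (
  let v107 := mul v93 v106; ok v107 && (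
  let v108 := add v101 v107; ok v108 && (
  let v109 := mul v108 v96; ok v109 && (
  let v110 := scale ⟨0, 1216, 0, 0⟩ v88; ok v110 && (
  let v111 := cst ⟨97408, 0, 0, 0⟩; ok v111 && (
  let v112 := add v110 v111; ok v112 && (
  let v113 := mul v88 v112; ok v113 && (
  let v114 := add v113 v77; ok v114 && (
  let v115 := mul v88 v114; ok v115 && (
  let v116 := add v115 v74; ok v116 && (
  let v117 := mul v88 v116; ok v117 && (
  let v118 := add v117 v69; ok v118 && (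
  let v119 := mul v88 v118; ok v119 && (
  let v120 := add v119 v62; ok v120 && (
  let v121 := mul v88 v120; ok v121 && (
  let v122 := add v109 v53; ok v122 && (
  let v123 := add v121 v122; ok v123 && (
  let v124 := mul v85 v123; ok v124 && (
  let v125 := add v124 v11; ok v125 && (
  let v126 := neg v125; ok v126 && (
  let v127 := exp v126; ok v127 && (
  let v128 := add v127 v0; ok v128 && (
  isPos 3 v128 && (
  let v129 := log v128; ok v129 && (
  let v130 := add x2 v24; ok v130 && (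
  let v131 := cst ⟨32985317376, 0, 0, 0⟩; ok v131 && (
  let v132 := scale ⟨549755813888, 0, 0, 0⟩ x2; ok v132 && (
  let v133 := add v132 v0; ok v133 && (
  isPos 3 v133 && (
  let v134 := inv v133; ok v134 && (
  let v135 := scale ⟨2199023255552, 0, 0, 0⟩ v131; ok v135 && (
  let v136 := mul v130 v135; ok v136 && (
  let v137 := mul v136 v134; ok v137 && (
  let v138 := mul v137 x3; ok v138 && (
  let v139 := sub v0 v138; ok v139 && (
  isPos 3 v139 && (
  let v140 := log v139; ok v140 && (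
  let v141 := mul v127 v138; ok v141 && (
  let v142 := add v141 v0; ok v142 && (
  isPos 3 v142 && (
  let v143 := log v142; ok v143 && (
  let v144 := sub v143 v140; ok v144 && (
  let v145 := add v125 v144; ok v145 && (
  let v146 := sub v129 v32; ok v146 && (
  let v147 := scale ⟨2199023255552, 0, 0, 0⟩ v146; ok v147 && (
  let v148 := add v124 v147; ok v148 && (
  let v149 := add v140 v143; ok v149 && (
  let v150 := sub v148 v149; ok v150 && (
  let v151 := mul x0 v145; ok v151 && (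
  let v152 := scale ⟨549755813888, 0, 0, 0⟩ v151; ok v152 && (
  let v153 := mul v152 v152; ok v153 && (
  isLt v153 68719476736 && (
  let v154 := scale ⟨9162596898, 0, 0, 0⟩ v153; ok v154 && (
  let v155 := cst ⟨183251937962, 0, 0, 0⟩; ok v155 && (
  let v156 := add v154 v155; ok v156 && (
  let v157 := mul v156 v153; ok v157 && (
  let v158 := cst ⟨1099511627776, 0, 0, 0⟩; ok v158 && (
  let v159 := add v157 v158; ok v159 && (
  let v160 := cst ⟨65536, 0, 0, 0⟩; ok v160 && (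
  let v161 := rball v159 v160; ok v161 && (
  let v162 := exp v152; ok v162 && (
  let v163 := mul v162 v161; ok v163 && (
  let v164 := mul v145 v163; ok v164 && (
  isPos 3 x0 && (
  let v165 := inv x0; ok v165 && (
  let v166 := mul x0 v150; ok v166 && (
  let v167 := exp v166; ok v167 && (
  let v168 := cst ⟨1099511627776, 0, 0, 0⟩; ok v168 && (
  let v169 := sub v167 v168; ok v169 && (
  let v170 := mul v169 v165; ok v170 && (
  let v171 := mul v10 x2; ok v171 && (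
  let v172 := add v171 v28; ok v172 && (
  let v173 := mul v80 v172; ok v173 && (
  let v174 := mul x0 v173; ok v174 && (
  let v175 := add v174 v10; ok v175 && (
  isPos 3 v175 && (
  let v176 := inv v175; ok v176 && (
  let v177 := add v88 v26; ok v177 && (
  let v178 := mul v164 v177; ok v178 && (
  let v179 := mul v173 v173; ok v179 && (
  let v180 := scale ⟨2199023255552, 0, 0, 0⟩ v179; ok v180 && (
  let v181 := sub v178 v180; ok v181 && (
  let v182 := mul v26 v26; ok v182 && (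
  let v183 := scale ⟨549755813888, 0, 0, 0⟩ v182; ok v183 && (
  let v184 := sub v181 v183; ok v184 && (
  let v185 := mul x0 v164; ok v185 && (
  let v186 := cst ⟨2199023255552, 0, 0, 0⟩; ok v186 && (
  let v187 := add v185 v186; ok v187 && (
  let v188 := mul v170 v187; ok v188 && (
  let v189 := mul v26 v188; ok v189 && (
  let v190 := add v184 v189; ok v190 && (
  let v191 := mul x0 v176; ok v191 && (
  let v192 := mul v191 v191; ok v192 && (
  let v193 := mul v192 v190; ok v193 && (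
  let v194 := add v193 v0; ok v194 && (
  isPos 3 v194 && (
  let v195 := log v194; ok v195 && (
  let v196 := scale ⟨549755813888, 0, 0, 0⟩ v195; ok v196 && (
  let v197 := exp v196; ok v197 && (
  let v198 := add v197 v0; ok v198 && (
  isPos 3 v198 && (
  let v199 := mul v190 v176; ok v199 && (
  let v200 := inv v198; ok v200 && (
  let v201 := mul v199 v200; ok v201 && (
  let v202 := mul x0 v201; ok v202 && (
  let v203 := add v173 v202; ok v203 && (
  isPos 3 v130 && (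
  let v204 := inv v130; ok v204 && (
  let v205 := mul v7 v79; ok v205 && (
  let v206 := mul v204 v205; ok v206 && (
  let v207 := mul v206 v201; ok v207 && (
  let v208 := mul x0 v207; ok v208 && (
  let v209 := add v208 v0; ok v209 && (
  isPos 3 v209 && (
  let v210 := mul v175 v7; ok v210 && (
  isPos 3 v210 && (
  let v211 := log v210; ok v211 && (
  let v212 := scale ⟨549755813888, 0, 0, 0⟩ v195; ok v212 && (
  let v213 := add v211 v212; ok v213 && (
  let v214 := mul v213 v165; ok v214 && (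
  let v215 := scale ⟨50540904448, 0, 0, 0⟩ v36; ok v215 && (
  let v216 := scale ⟨0, 6880231424, 0, 0⟩ v37; ok v216 && (
  let v217 := add v215 v216; ok v217 && (
  let v218 := scale ⟨1235288064, 0, 0, 0⟩ v38; ok v218 && (
  let v219 := add v217 v218; ok v219 && (
  let v220 := scale ⟨6022018367488, 0, 0, 0⟩ v34; ok v220 && (
  let v221 := add v219 v220; ok v221 && (
  let v222 := scale ⟨0, 310254501888, 0, 0⟩ v39; ok v222 && (
  let v223 := add v221 v222; ok v223 && (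
  let v224 := cst ⟨488400224256, 0, 0, 0⟩; ok v224 && (
  let v225 := add v223 v224; ok v225 && (
  let v226 := scale ⟨2199023255552, 0, 0, 0⟩ v2; ok v226 && (
  let v227 := exp v226; ok v227 && (
  isPos 3 v225 && (
  let v228 := mul v207 v227; ok v228 && (
  let v229 := scale ⟨2199023255552, 0, 0, 0⟩ v228; ok v229 && (
  let v230 := inv v209; ok v230 && (
  let v231 := mul v206 v230; ok v231 && (
  let v232 := inv v225; ok v232 && (
  let v233 := mul v227 v232; ok v233 && (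
  let v234 := mul v231 v233; ok v234 && (
  let v235 := mul v229 v234; ok v235 && (
  isLt v235 1099510579200 && (
  let v236 := cst ⟨15985868275712, 0, 0, 0⟩; ok v236 && (
  let v237 := add v27 v236; ok v237 && (
  isPos 3 v237 && (
  let v238 := mul v203 v203; ok v238 && (
  let v239 := sub v238 v27; ok v239 && (
  let v240 := inv v237; ok v240 && (
  let v241 := mul v239 v240; ok v241 && (
  isLt v241 1099510579200 && (
  let v242 := scale ⟨2228224, 0, 0, 0⟩ v88; ok v242 && (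
  let v243 := cst ⟨0, 72482816, 0, 0⟩; ok v243 && (
  let v244 := add v242 v243; ok v244 && (
  let v245 := mul v88 v244; ok v245 && (
  let v246 := scale ⟨200212480, 0, 0, 0⟩ v36; ok v246 && (
  let v247 := scale ⟨634688372736, 0, 0, 0⟩ v34; ok v247 && (
  let v248 := add v246 v247; ok v248 && (
  let v249 := cst ⟨10809180160, 0, 0, 0⟩; ok v249 && (
  let v250 := add v248 v249; ok v250 && (
  let v251 := add v245 v250; ok v251 && (
  let v252 := mul v88 v251; ok v252 && (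
  let v253 := scale ⟨11386028032, 0, 0, 0⟩ v36; ok v253 && (
  let v254 := scale ⟨0, 1037828096, 0, 0⟩ v37; ok v254 && (
  let v255 := add v253 v254; ok v255 && (
  let v256 := scale ⟨1713458249728, 0, 0, 0⟩ v34; ok v256 && (
  let v257 := add v255 v256; ok v257 && (
  let v258 := cst ⟨1126051741696, 0, 0, 0⟩; ok v258 && (
  let v259 := add v257 v258; ok v259 && (
  let v260 := add v252 v259; ok v260 && (
  let v261 := scale ⟨1099511627776, 0, 0, 0⟩ v131; ok v261 && (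
  isPos 3 v261 && (
  let v262 := inv v261; ok v262 && (
  let v263 := mul v133 v204; ok v263 && (
  let v264 := mul v263 v262; ok v264 && (
  let v265 := scale ⟨549755813888, 0, 0, 0⟩ v264; ok v265 && (
  let v266 := mul x0 v203; ok v266 && (
  let v267 := add v266 v10; ok v267 && (
  isPos 3 v267 && (
  let v268 := inv v267; ok v268 && (
  let v269 := mul v7 v268; ok v269 && (
  let v270 := sub v203 v24; ok v270 && (
  let v271 := add v7 v268; ok v271 && (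
  let v272 := mul v270 v271; ok v272 && (
  let v273 := mul v269 v272; ok v273 && (
  let v274 := mul v7 v24; ok v274 && (
  let v275 := scale ⟨2199023255552, 0, 0, 0⟩ v274; ok v275 && (
  let v276 := add v273 v275; ok v276 && (
  let v277 := scale ⟨0, 67705864454144, 0, 0⟩ v34; ok v277 && (
  let v278 := cst ⟨0, 2500207837184, 0, 0⟩; ok v278 && (
  let v279 := add v277 v278; ok v279 && (
  let v280 := sub v276 v279; ok v280 && (
  isPos 3 v280 && (
  let v281 := inv v280; ok v281 && (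
  let v282 := scale ⟨31362867265536, 0, 0, 0⟩ v281; ok v282 && (
  let v283 := add v280 v282; ok v283 && (
  isPos 3 v283 && (
  let v284 := inv v283; ok v284 && (
  let v285 := scale ⟨0, 92484356608, 0, 0⟩ v36; ok v285 && (
  let v286 := scale ⟨0, 9253067868544, 0, 0⟩ v34; ok v286 && (
  let v287 := add v285 v286; ok v287 && (
  let v288 := cst ⟨0, 244682256384, 0, 0⟩; ok v288 && (
  let v289 := add v287 v288; ok v289 && (
  let v290 := scale ⟨0, 416015052480, 0, 0⟩ v36; ok v290 && (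
  let v291 := scale ⟨62483878609088, 0, 0, 0⟩ v34; ok v291 && (
  let v292 := add v290 v291; ok v292 && (
  let v293 := cst ⟨691652083072, 0, 0, 0⟩; ok v293 && (
  let v294 := add v292 v293; ok v294 && (
  let v295 := mul v281 v294; ok v295 && (
  let v296 := add v289 v295; ok v296 && (
  let v297 := mul v296 v284; ok v297 && (
  let v298 := scale ⟨0, 1216, 0, 0⟩ v276; ok v298 && (
  let v299 := cst ⟨97408, 0, 0, 0⟩; ok v299 && (
  let v300 := add v298 v299; ok v300 && (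
  let v301 := mul v276 v300; ok v301 && (
  let v302 := add v301 v77; ok v302 && (
  let v303 := mul v276 v302; ok v303 && (
  let v304 := add v303 v74; ok v304 && (
  let v305 := mul v276 v304; ok v305 && (
  let v306 := add v305 v69; ok v306 && (
  let v307 := mul v276 v306; ok v307 && (
  let v308 := add v307 v62; ok v308 && (
  let v309 := mul v276 v308; ok v309 && (
  let v310 := add v297 v53; ok v310 && (
  let v311 := add v309 v310; ok v311 && (
  let v312 := mul v273 v311; ok v312 && (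
  let v313 := add v312 v11; ok v313 && (
  let v314 := neg v313; ok v314 && (
  let v315 := exp v314; ok v315 && (
  let v316 := add v315 v0; ok v316 && (
  isPos 3 v316 && (
  let v317 := log v316; ok v317 && (
  let v318 := scale ⟨329907175424, 0, 0, 0⟩ v203; ok v318 && (
  let v319 := add v318 v0; ok v319 && (
  isPos 3 v319 && (
  let v320 := inv v319; ok v320 && (
  let v321 := cst ⟨27267891200, 0, 0, 0⟩; ok v321 && (
  let v322 := scale ⟨1099511627776, 0, 0, 0⟩ v321; ok v322 && (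
  let v323 := mul v322 v262; ok v323 && (
  let v324 := mul v6 v80; ok v324 && (
  let v325 := mul v324 v209; ok v325 && (
  let v326 := mul v323 v325; ok v326 && (
  let v327 := mul v133 v320; ok v327 && (
  let v328 := mul v326 v327; ok v328 && (
  let v329 := add v124 v129; ok v329 && (
  let v330 := sub v329 v317; ok v330 && (
  let v331 := sub v330 v214; ok v331 && (
  let v332 := exp v331; ok v332 && (
  let v333 := cst ⟨0, 0, 0, 0⟩; ok v333 && (
  let v334 := mul v260 v332; ok v334 && (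
  let v335 := mul v334 v315; ok v335 && (
  let v336 := mul v335 v328; ok v336 && (
  let v337 := rball v333 v336; ok v337 && (
  let v338 := sub v0 v260; ok v338 && (
  let v339 := mul x3 v338; ok v339 && (
  let v340 := sub v0 v332; ok v340 && (
  let v341 := scale ⟨1099511627776, 0, 0, 0⟩ v340; ok v341 && (
  let v342 := mul v341 v265; ok v342 && (
  let v343 := mul v260 v342; ok v343 && (
  let v344 := add v339 v343; ok v344 && (
  let v345 := add v344 v337; ok v345 && (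
  isLt v345 1099510579200 && (
  true))))))))))))))))))))))))))))))))))))))))))))))))))))))))))))))))))))))))))))))))))))))))))))))))))))))))))))))))))))))))))))))))))))))))))))))))))))))))))))))))))))))))))))))))))))))))))))))))))))))))))))))))))))))))))))))))))))))))))))))))))))))))))))))))))))))))))))))))))))))))))))))))))))))))))))))))))))))))))))))))))))))))))))))))))))))))))))))))))))))))))))))))))))))
  | _ => false

set_option maxRecDepth 1000000 in
theorem c2_1_eq (X : XOps) (m : List X.O.α)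
    (h : c2_1 X.O.cst X.O.add X.O.sub X.O.mul X.O.scale X.O.neg X.O.inv X.O.exp X.O.log X.O.ok
      X.O.isPos X.O.isLt X.ball X.rball m = true) :
    runX X 3 p2_1 m = true := by
  match m, h with
  | [x0, x1, x2, x3], h => exact h

def p1_A1 : List Op := [
  .const ⟨1099511627776, 0, 0, 0⟩,
  .scale ⟨2251799813685248, 0, 0, 0⟩ 1,
  .scale ⟨2621138010112, 0, 0, 0⟩ 0,
  .const ⟨0, 329733641338880, 0, 0⟩,
  .add 1 0,
  .mul 0 5,
  .const ⟨7218766282752, 0, 0, 0⟩,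
  .add 1 0,
  .mul 9 0,
  .const ⟨2199023255552, 0, 0, 0⟩,
  .add 1 0,
  .mul 11 0,
  .exp 0,
  .neg 1,
  .exp 0,
  .mul 3 3,
  .lt 0 68719476736,
  .scale ⟨9162596898, 0, 0, 0⟩ 0,
  .const ⟨183251937962, 0, 0, 0⟩,
  .add 1 0,
  .mul 0 3,
  .const ⟨1099511627776, 0, 0, 0⟩,
  .add 1 0,
  .const ⟨65536, 0, 0, 0⟩,
  .rball 1 0,
  .scale ⟨2199023255552, 0, 0, 0⟩ 13,
  .mul 0 1,
  .add 13 11,
  .scale ⟨549755813888, 0, 0, 0⟩ 0,
  .mul 2 0,
  .mul 0 0,
  .const ⟨20300431360, 0, 0, 0⟩,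
  .sub 31 0,
  .const ⟨3680786972672, 0, 0, 0⟩,
  .sub 22 0,
  .mul 0 0,
  .mul 0 1,
  .mul 4 2,
  .mul 22 22,
  .mul 0 0,
  .scale ⟨4398046511104, 0, 0, 0⟩ 27,
  .neg 0,
  .exp 0,
  .scale ⟨0, 90479460352, 0, 0⟩ 8,
  .scale ⟨46340374528, 0, 0, 0⟩ 8,
  .add 1 0,
  .scale ⟨0, 6376456192, 0, 0⟩ 9,
  .add 1 0,
  .scale ⟨0, 5957446467584, 0, 0⟩ 15,
  .add 1 0,
  .scale ⟨7610229063680, 0, 0, 0⟩ 12,
  .add 1 0,
  .const ⟨776571453440, 0, 0, 0⟩,
  .add 1 0,
  .mul 53 24,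
  .mul 0 1,
  .add 0 54,
  .mul 14 0,
  .scale ⟨2199023255552, 0, 0, 0⟩ 19,
  .mul 5 16,
  .sub 1 0,
  .mul 60 0,
  .add 4 60,
  .mul 1 32,
  .mul 1 65,
  .scale ⟨0, 0, 1099511627776, 0⟩ 0,
  .add 2 0,
  .mul 5 68,
  .scale ⟨0, 0, 1099511627776, 0⟩ 0,
  .add 6 0,
  .inv 0,
  .mul 4 0]

set_option maxRecDepth 1000000 in
noncomputable def c_A1_0 {α : Type} (cst : Z → α) (add sub mul : α → α → α) (scale : Z → α → α)
    (neg inv exp log : α → α) (ok : α → Bool) (isPos : Nat → α → Bool) (isLt : α → Nat → Bool)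
    (ball : Nat → α → α) (rball : α → α → α) : List α → Bool
  | [x0, x1, x2, x3] =>
  let v0 := cst ⟨1099511627776, 0, 0, 0⟩; ok v0 && (
  let v1 := scale ⟨2251799813685248, 0, 0, 0⟩ x0; ok v1 && (
  let v2 := scale ⟨2621138010112, 0, 0, 0⟩ v1; ok v2 && (
  let v3 := cst ⟨0, 329733641338880, 0, 0⟩; ok v3 && (
  let v4 := add v2 v3; ok v4 && (
  let v5 := mul v4 x0; ok v5 && (
  let v6 := cst ⟨7218766282752, 0, 0, 0⟩; ok v6 && (
  let v7 := add v5 v6; ok v7 && (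
  let v8 := mul x1 v7; ok v8 && (
  let v9 := cst ⟨2199023255552, 0, 0, 0⟩; ok v9 && (
  let v10 := add v8 v9; ok v10 && (
  let v11 := mul x0 v10; ok v11 && (
  let v12 := exp v11; ok v12 && (
  let v13 := neg v11; ok v13 && (
  let v14 := exp v13; ok v14 && (
  let v15 := mul v11 v11; ok v15 && (
  isLt v15 68719476736 && (
  let v16 := scale ⟨9162596898, 0, 0, 0⟩ v15; ok v16 && (
  let v17 := cst ⟨183251937962, 0, 0, 0⟩; ok v17 && (
  let v18 := add v16 v17; ok v18 && (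
  let v19 := mul v18 v15; ok v19 && (
  let v20 := cst ⟨1099511627776, 0, 0, 0⟩; ok v20 && (
  let v21 := add v19 v20; ok v21 && (
  let v22 := cst ⟨65536, 0, 0, 0⟩; ok v22 && (
  let v23 := rball v21 v22; ok v23 && (
  let v24 := scale ⟨2199023255552, 0, 0, 0⟩ v10; ok v24 && (
  let v25 := mul v24 v23; ok v25 && (
  let v26 := add v12 v14; ok v26 && (
  let v27 := scale ⟨549755813888, 0, 0, 0⟩ v26; ok v27 && (
  let v28 := mul v25 v27; ok v28 && (
  let v29 := mul v28 v28; ok v29 && (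
  let v30 := cst ⟨20300431360, 0, 0, 0⟩; ok v30 && (
  let v31 := sub x0 v30; ok v31 && (
  let v32 := cst ⟨3680786972672, 0, 0, 0⟩; ok v32 && (
  let v33 := sub v10 v32; ok v33 && (
  let v34 := mul v33 v33; ok v34 && (
  let v35 := mul v34 v33; ok v35 && (
  let v36 := mul v31 v33; ok v36 && (
  let v37 := mul v14 v14; ok v37 && (
  let v38 := mul v37 v37; ok v38 && (
  let v39 := scale ⟨4398046511104, 0, 0, 0⟩ v11; ok v39 && (
  let v40 := neg v39; ok v40 && (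
  let v41 := exp v40; ok v41 && (
  let v42 := scale ⟨0, 90479460352, 0, 0⟩ v33; ok v42 && (
  let v43 := scale ⟨46340374528, 0, 0, 0⟩ v34; ok v43 && (
  let v44 := add v42 v43; ok v44 && (
  let v45 := scale ⟨0, 6376456192, 0, 0⟩ v35; ok v45 && (
  let v46 := add v44 v45; ok v46 && (
  let v47 := scale ⟨0, 5957446467584, 0, 0⟩ v31; ok v47 && (
  let v48 := add v46 v47; ok v48 && (
  let v49 := scale ⟨7610229063680, 0, 0, 0⟩ v36; ok v49 && (
  let v50 := add v48 v49; ok v50 && (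
  let v51 := cst ⟨776571453440, 0, 0, 0⟩; ok v51 && (
  let v52 := add v50 v51; ok v52 && (
  let v53 := mul x0 v28; ok v53 && (
  let v54 := mul v53 v52; ok v54 && (
  let v55 := add v54 v0; ok v55 && (
  let v56 := mul v41 v55; ok v56 && (
  let v57 := scale ⟨2199023255552, 0, 0, 0⟩ v37; ok v57 && (
  let v58 := mul v52 v41; ok v58 && (
  let v59 := sub v57 v58; ok v59 && (
  let v60 := mul x0 v59; ok v60 && (
  let v61 := add v56 v0; ok v61 && (
  let v62 := mul v60 v29; ok v62 && (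
  let v63 := mul v61 x2; ok v63 && (
  let v64 := scale ⟨0, 0, 1099511627776, 0⟩ v63; ok v64 && (
  let v65 := add v62 v64; ok v65 && (
  let v66 := mul v60 x2; ok v66 && (
  let v67 := scale ⟨0, 0, 1099511627776, 0⟩ v66; ok v67 && (
  let v68 := add v61 v67; ok v68 && (
  let v69 := inv v68; ok v69 && (
  let v70 := mul v65 v69; ok v70 && (
  c2_1 cst add sub mul scale neg inv exp log ok isPos isLt ball rball [x0, v10, v70, x3]))))))))))))))))))))))))))))))))))))))))))))))))))))))))))))))))))))))))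
  | _ => false

set_option maxRecDepth 1000000 in
theorem c_A1_0_eq (X : XOps) (m : List X.O.α)
    (h : c_A1_0 X.O.cst X.O.add X.O.sub X.O.mul X.O.scale X.O.neg X.O.inv X.O.exp X.O.log X.O.ok
      X.O.isPos X.O.isLt X.ball X.rball m = true) :
    runX X 3 (p1_A1 ++ reloc [71, 60, 0, 74] 75 0 p2_1) m = true := by
  match m, h with
  | [x0, x1, x2, x3], h => exact share (c2_1_eq X) [x0, x1, x2, x3] (Nat.le_of_ble_eq_true rfl) h

def p_A1_1 : List Op := [
  .const ⟨1099511627776, 0, 0, 0⟩,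
  .scale ⟨2251799813685248, 0, 0, 0⟩ 1,
  .scale ⟨2621138010112, 0, 0, 0⟩ 0,
  .const ⟨0, 329733641338880, 0, 0⟩,
  .add 1 0,
  .mul 0 5,
  .const ⟨7218766282752, 0, 0, 0⟩,
  .add 1 0,
  .mul 9 0,
  .const ⟨2199023255552, 0, 0, 0⟩,
  .add 1 0,
  .mul 11 0,
  .exp 0,
  .neg 1,
  .exp 0,
  .mul 3 3,
  .lt 0 68719476736,
  .scale ⟨9162596898, 0, 0, 0⟩ 0,
  .const ⟨183251937962, 0, 0, 0⟩,
  .add 1 0,
  .mul 0 3,
  .const ⟨1099511627776, 0, 0, 0⟩,
  .add 1 0,
  .const ⟨65536, 0, 0, 0⟩,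
  .rball 1 0,
  .scale ⟨2199023255552, 0, 0, 0⟩ 13,
  .mul 0 1,
  .add 13 11,
  .scale ⟨549755813888, 0, 0, 0⟩ 0,
  .mul 2 0,
  .mul 0 0,
  .const ⟨20300431360, 0, 0, 0⟩,
  .sub 31 0,
  .const ⟨3680786972672, 0, 0, 0⟩,
  .sub 22 0,
  .mul 0 0,
  .mul 0 1,
  .mul 4 2,
  .mul 22 22,
  .mul 0 0,
  .scale ⟨4398046511104, 0, 0, 0⟩ 27,
  .neg 0,
  .exp 0,
  .scale ⟨0, 90479460352, 0, 0⟩ 8,
  .scale ⟨46340374528, 0, 0, 0⟩ 8,
  .add 1 0,
  .scale ⟨0, 6376456192, 0, 0⟩ 9,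
  .add 1 0,
  .scale ⟨0, 5957446467584, 0, 0⟩ 15,
  .add 1 0,
  .scale ⟨7610229063680, 0, 0, 0⟩ 12,
  .add 1 0,
  .const ⟨776571453440, 0, 0, 0⟩,
  .add 1 0,
  .mul 53 24,
  .mul 0 1,
  .add 0 54,
  .mul 14 0,
  .scale ⟨2199023255552, 0, 0, 0⟩ 19,
  .mul 5 16,
  .sub 1 0,
  .mul 60 0,
  .add 4 60,
  .mul 1 32,
  .mul 1 65,
  .scale ⟨0, 0, 1099511627776, 0⟩ 0,
  .add 2 0,
  .mul 5 68,
  .scale ⟨0, 0, 1099511627776, 0⟩ 0,
  .add 6 0,
  .inv 0,
  .mul 4 0,
  .const ⟨12685185908736, 0, 0, 0⟩,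
  .add 42 0,
  .mul 73 0,
  .mul 74 3,
  .mul 0 4,
  .mul 76 46,
  .sub 1 0,
  .inv 0,
  .mul 5 0,
  .lt 0 1099511627520]

set_option maxRecDepth 1000000 in
noncomputable def c_A1_1 {α : Type} (cst : Z → α) (add sub mul : α → α → α) (scale : Z → α → α)
    (neg inv exp log : α → α) (ok : α → Bool) (isPos : Nat → α → Bool) (isLt : α → Nat → Bool)
    (ball : Nat → α → α) (rball : α → α → α) : List α → Bool
  | [x0, x1, x2, x3] =>
  let v0 := cst ⟨1099511627776, 0, 0, 0⟩; ok v0 && (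
  let v1 := scale ⟨2251799813685248, 0, 0, 0⟩ x0; ok v1 && (
  let v2 := scale ⟨2621138010112, 0, 0, 0⟩ v1; ok v2 && (
  let v3 := cst ⟨0, 329733641338880, 0, 0⟩; ok v3 && (
  let v4 := add v2 v3; ok v4 && (
  let v5 := mul v4 x0; ok v5 && (
  let v6 := cst ⟨7218766282752, 0, 0, 0⟩; ok v6 && (
  let v7 := add v5 v6; ok v7 && (
  let v8 := mul x1 v7; ok v8 && (
  let v9 := cst ⟨2199023255552, 0, 0, 0⟩; ok v9 && (
  let v10 := add v8 v9; ok v10 && (
  let v11 := mul x0 v10; ok v11 && (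
  let v12 := exp v11; ok v12 && (
  let v13 := neg v11; ok v13 && (
  let v14 := exp v13; ok v14 && (
  let v15 := mul v11 v11; ok v15 && (
  isLt v15 68719476736 && (
  let v16 := scale ⟨9162596898, 0, 0, 0⟩ v15; ok v16 && (
  let v17 := cst ⟨183251937962, 0, 0, 0⟩; ok v17 && (
  let v18 := add v16 v17; ok v18 && (
  let v19 := mul v18 v15; ok v19 && (
  let v20 := cst ⟨1099511627776, 0, 0, 0⟩; ok v20 && (
  let v21 := add v19 v20; ok v21 && (
  let v22 := cst ⟨65536, 0, 0, 0⟩; ok v22 && (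
  let v23 := rball v21 v22; ok v23 && (
  let v24 := scale ⟨2199023255552, 0, 0, 0⟩ v10; ok v24 && (
  let v25 := mul v24 v23; ok v25 && (
  let v26 := add v12 v14; ok v26 && (
  let v27 := scale ⟨549755813888, 0, 0, 0⟩ v26; ok v27 && (
  let v28 := mul v25 v27; ok v28 && (
  let v29 := mul v28 v28; ok v29 && (
  let v30 := cst ⟨20300431360, 0, 0, 0⟩; ok v30 && (
  let v31 := sub x0 v30; ok v31 && (
  let v32 := cst ⟨3680786972672, 0, 0, 0⟩; ok v32 && (
  let v33 := sub v10 v32; ok v33 && (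
  let v34 := mul v33 v33; ok v34 && (
  let v35 := mul v34 v33; ok v35 && (
  let v36 := mul v31 v33; ok v36 && (
  let v37 := mul v14 v14; ok v37 && (
  let v38 := mul v37 v37; ok v38 && (
  let v39 := scale ⟨4398046511104, 0, 0, 0⟩ v11; ok v39 && (
  let v40 := neg v39; ok v40 && (
  let v41 := exp v40; ok v41 && (
  let v42 := scale ⟨0, 90479460352, 0, 0⟩ v33; ok v42 && (
  let v43 := scale ⟨46340374528, 0, 0, 0⟩ v34; ok v43 && (
  let v44 := add v42 v43; ok v44 && (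
  let v45 := scale ⟨0, 6376456192, 0, 0⟩ v35; ok v45 && (
  let v46 := add v44 v45; ok v46 && (
  let v47 := scale ⟨0, 5957446467584, 0, 0⟩ v31; ok v47 && (
  let v48 := add v46 v47; ok v48 && (
  let v49 := scale ⟨7610229063680, 0, 0, 0⟩ v36; ok v49 && (
  let v50 := add v48 v49; ok v50 && (
  let v51 := cst ⟨776571453440, 0, 0, 0⟩; ok v51 && (
  let v52 := add v50 v51; ok v52 && (
  let v53 := mul x0 v28; ok v53 && (
  let v54 := mul v53 v52; ok v54 && (
  let v55 := add v54 v0; ok v55 && (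
  let v56 := mul v41 v55; ok v56 && (
  let v57 := scale ⟨2199023255552, 0, 0, 0⟩ v37; ok v57 && (
  let v58 := mul v52 v41; ok v58 && (
  let v59 := sub v57 v58; ok v59 && (
  let v60 := mul x0 v59; ok v60 && (
  let v61 := add v56 v0; ok v61 && (
  let v62 := mul v60 v29; ok v62 && (
  let v63 := mul v61 x2; ok v63 && (
  let v64 := scale ⟨0, 0, 1099511627776, 0⟩ v63; ok v64 && (
  let v65 := add v62 v64; ok v65 && (
  let v66 := mul v60 x2; ok v66 && (
  let v67 := scale ⟨0, 0, 1099511627776, 0⟩ v66; ok v67 && (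
  let v68 := add v61 v67; ok v68 && (
  let v69 := inv v68; ok v69 && (
  let v70 := mul v65 v69; ok v70 && (
  let v71 := cst ⟨12685185908736, 0, 0, 0⟩; ok v71 && (
  let v72 := add v29 v71; ok v72 && (
  let v73 := mul x0 v72; ok v73 && (
  let v74 := mul x0 v70; ok v74 && (
  let v75 := mul v74 v70; ok v75 && (
  let v76 := mul x0 v29; ok v76 && (
  let v77 := sub v75 v76; ok v77 && (
  let v78 := inv v77; ok v78 && (
  let v79 := mul v73 v78; ok v79 && (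
  isLt v79 1099511627520 && (
  true))))))))))))))))))))))))))))))))))))))))))))))))))))))))))))))))))))))))))))))))))
  | _ => false

set_option maxRecDepth 1000000 in
theorem c_A1_1_eq (X : XOps) (m : List X.O.α)
    (h : c_A1_1 X.O.cst X.O.add X.O.sub X.O.mul X.O.scale X.O.neg X.O.inv X.O.exp X.O.log X.O.ok
      X.O.isPos X.O.isLt X.ball X.rball m = true) :
    runX X 3 p_A1_1 m = true := by
  match m, h with
  | [x0, x1, x2, x3], h => exact h

abbrev gA1 : List (List Op) := [(p1_A1 ++ reloc [71, 60, 0, 74] 75 0 p2_1), p_A1_1]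

noncomputable abbrev kA1 : List (List xE.O.α → Bool) := [c_A1_0 xE.O.cst xE.O.add xE.O.sub xE.O.mul xE.O.scale xE.O.neg xE.O.inv xE.O.exp xE.O.log xE.O.ok
      xE.O.isPos xE.O.isLt xE.ball xE.rball, c_A1_1 xE.O.cst xE.O.add xE.O.sub xE.O.mul xE.O.scale xE.O.neg xE.O.inv xE.O.exp xE.O.log xE.O.ok
      xE.O.isPos xE.O.isLt xE.ball xE.rball]

theorem kA1_eq : List.Forall₂ (fun (ops : List Op) (chk : List xE.O.α → Bool) =>
    ∀ m, chk m = true → runX xE 3 ops m = true) gA1 kA1 :=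
  List.Forall₂.cons (c_A1_0_eq xE) (List.Forall₂.cons (c_A1_1_eq xE) List.Forall₂.nil)

theorem gA1_eq : gA1 = [circ (cA tab 1) (PSm tab 1), altP (cA tab 1) (oCut tab 1)] := by decide +kernel

def p1_B1 : List Op := [
  .const ⟨1099511627776, 0, 0, 0⟩,
  .scale ⟨2251799813685248, 0, 0, 0⟩ 1,
  .scale ⟨2621138010112, 0, 0, 0⟩ 0,
  .const ⟨0, 329733641338880, 0, 0⟩,
  .add 1 0,
  .mul 0 5,
  .const ⟨7218766282752, 0, 0, 0⟩,
  .add 1 0,
  .mul 9 0,
  .const ⟨2199023255552, 0, 0, 0⟩,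
  .add 1 0,
  .mul 11 0,
  .exp 0,
  .neg 1,
  .exp 0,
  .mul 3 3,
  .lt 0 68719476736,
  .scale ⟨9162596898, 0, 0, 0⟩ 0,
  .const ⟨183251937962, 0, 0, 0⟩,
  .add 1 0,
  .mul 0 3,
  .const ⟨1099511627776, 0, 0, 0⟩,
  .add 1 0,
  .const ⟨65536, 0, 0, 0⟩,
  .rball 1 0,
  .scale ⟨2199023255552, 0, 0, 0⟩ 13,
  .mul 0 1,
  .add 13 11,
  .scale ⟨549755813888, 0, 0, 0⟩ 0,
  .mul 2 0,
  .mul 0 0,
  .const ⟨20300431360, 0, 0, 0⟩,
  .sub 31 0,
  .const ⟨3680786972672, 0, 0, 0⟩,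
  .sub 22 0,
  .mul 0 0,
  .mul 0 1,
  .mul 4 2,
  .mul 22 22,
  .mul 0 0,
  .scale ⟨4398046511104, 0, 0, 0⟩ 27,
  .neg 0,
  .exp 0,
  .scale ⟨0, 90479460352, 0, 0⟩ 8,
  .scale ⟨46340374528, 0, 0, 0⟩ 8,
  .add 1 0,
  .scale ⟨0, 6376456192, 0, 0⟩ 9,
  .add 1 0,
  .scale ⟨0, 5957446467584, 0, 0⟩ 15,
  .add 1 0,
  .scale ⟨7610229063680, 0, 0, 0⟩ 12,
  .add 1 0,
  .const ⟨776571453440, 0, 0, 0⟩,
  .add 1 0,
  .mul 53 24,
  .mul 0 1,
  .add 0 54,
  .mul 14 0,
  .scale ⟨2199023255552, 0, 0, 0⟩ 19,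
  .mul 5 16,
  .sub 1 0,
  .mul 60 0,
  .add 4 60,
  .mul 1 32,
  .mul 0 65,
  .scale ⟨0, 0, 1099511627776, 0⟩ 2,
  .add 1 0,
  .mul 4 68,
  .scale ⟨0, 0, 1099511627776, 0⟩ 6,
  .add 1 0,
  .inv 0,
  .mul 4 0]

set_option maxRecDepth 1000000 in
noncomputable def c_B1_0 {α : Type} (cst : Z → α) (add sub mul : α → α → α) (scale : Z → α → α)
    (neg inv exp log : α → α) (ok : α → Bool) (isPos : Nat → α → Bool) (isLt : α → Nat → Bool)
    (ball : Nat → α → α) (rball : α → α → α) : List α → Bool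
  | [x0, x1, x2, x3] =>
  let v0 := cst ⟨1099511627776, 0, 0, 0⟩; ok v0 && (
  let v1 := scale ⟨2251799813685248, 0, 0, 0⟩ x0; ok v1 && (
  let v2 := scale ⟨2621138010112, 0, 0, 0⟩ v1; ok v2 && (
  let v3 := cst ⟨0, 329733641338880, 0, 0⟩; ok v3 && (
  let v4 := add v2 v3; ok v4 && (
  let v5 := mul v4 x0; ok v5 && (
  let v6 := cst ⟨7218766282752, 0, 0, 0⟩; ok v6 && (
  let v7 := add v5 v6; ok v7 && (
  let v8 := mul x1 v7; ok v8 && (
  let v9 := cst ⟨2199023255552, 0, 0, 0⟩; ok v9 && (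
  let v10 := add v8 v9; ok v10 && (
  let v11 := mul x0 v10; ok v11 && (
  let v12 := exp v11; ok v12 && (
  let v13 := neg v11; ok v13 && (
  let v14 := exp v13; ok v14 && (
  let v15 := mul v11 v11; ok v15 && (
  isLt v15 68719476736 && (
  let v16 := scale ⟨9162596898, 0, 0, 0⟩ v15; ok v16 && (
  let v17 := cst ⟨183251937962, 0, 0, 0⟩; ok v17 && (
  let v18 := add v16 v17; ok v18 && (
  let v19 := mul v18 v15; ok v19 && (
  let v20 := cst ⟨1099511627776, 0, 0, 0⟩; ok v20 && (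
  let v21 := add v19 v20; ok v21 && (
  let v22 := cst ⟨65536, 0, 0, 0⟩; ok v22 && (
  let v23 := rball v21 v22; ok v23 && (
  let v24 := scale ⟨2199023255552, 0, 0, 0⟩ v10; ok v24 && (
  let v25 := mul v24 v23; ok v25 && (
  let v26 := add v12 v14; ok v26 && (
  let v27 := scale ⟨549755813888, 0, 0, 0⟩ v26; ok v27 && (
  let v28 := mul v25 v27; ok v28 && (
  let v29 := mul v28 v28; ok v29 && (
  let v30 := cst ⟨20300431360, 0, 0, 0⟩; ok v30 && (
  let v31 := sub x0 v30; ok v31 && (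
  let v32 := cst ⟨3680786972672, 0, 0, 0⟩; ok v32 && (
  let v33 := sub v10 v32; ok v33 && (
  let v34 := mul v33 v33; ok v34 && (
  let v35 := mul v34 v33; ok v35 && (
  let v36 := mul v31 v33; ok v36 && (
  let v37 := mul v14 v14; ok v37 && (
  let v38 := mul v37 v37; ok v38 && (
  let v39 := scale ⟨4398046511104, 0, 0, 0⟩ v11; ok v39 && (
  let v40 := neg v39; ok v40 && (
  let v41 := exp v40; ok v41 && (
  let v42 := scale ⟨0, 90479460352, 0, 0⟩ v33; ok v42 && (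
  let v43 := scale ⟨46340374528, 0, 0, 0⟩ v34; ok v43 && (
  let v44 := add v42 v43; ok v44 && (
  let v45 := scale ⟨0, 6376456192, 0, 0⟩ v35; ok v45 && (
  let v46 := add v44 v45; ok v46 && (
  let v47 := scale ⟨0, 5957446467584, 0, 0⟩ v31; ok v47 && (
  let v48 := add v46 v47; ok v48 && (
  let v49 := scale ⟨7610229063680, 0, 0, 0⟩ v36; ok v49 && (
  let v50 := add v48 v49; ok v50 && (
  let v51 := cst ⟨776571453440, 0, 0, 0⟩; ok v51 && (
  let v52 := add v50 v51; ok v52 && (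
  let v53 := mul x0 v28; ok v53 && (
  let v54 := mul v53 v52; ok v54 && (
  let v55 := add v54 v0; ok v55 && (
  let v56 := mul v41 v55; ok v56 && (
  let v57 := scale ⟨2199023255552, 0, 0, 0⟩ v37; ok v57 && (
  let v58 := mul v52 v41; ok v58 && (
  let v59 := sub v57 v58; ok v59 && (
  let v60 := mul x0 v59; ok v60 && (
  let v61 := add v56 v0; ok v61 && (
  let v62 := mul v60 v29; ok v62 && (
  let v63 := mul v62 x2; ok v63 && (
  let v64 := scale ⟨0, 0, 1099511627776, 0⟩ v61; ok v64 && (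
  let v65 := add v63 v64; ok v65 && (
  let v66 := mul v61 x2; ok v66 && (
  let v67 := scale ⟨0, 0, 1099511627776, 0⟩ v60; ok v67 && (
  let v68 := add v66 v67; ok v68 && (
  let v69 := inv v68; ok v69 && (
  let v70 := mul v65 v69; ok v70 && (
  c2_1 cst add sub mul scale neg inv exp log ok isPos isLt ball rball [x0, v10, v70, x3]))))))))))))))))))))))))))))))))))))))))))))))))))))))))))))))))))))))))
  | _ => false

set_option maxRecDepth 1000000 in
theorem c_B1_0_eq (X : XOps) (m : List X.O.α)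
    (h : c_B1_0 X.O.cst X.O.add X.O.sub X.O.mul X.O.scale X.O.neg X.O.inv X.O.exp X.O.log X.O.ok
      X.O.isPos X.O.isLt X.ball X.rball m = true) :
    runX X 3 (p1_B1 ++ reloc [71, 60, 0, 74] 75 0 p2_1) m = true := by
  match m, h with
  | [x0, x1, x2, x3], h => exact share (c2_1_eq X) [x0, x1, x2, x3] (Nat.le_of_ble_eq_true rfl) h

def p_B1_1 : List Op := [
  .const ⟨1099511627776, 0, 0, 0⟩,
  .scale ⟨2251799813685248, 0, 0, 0⟩ 1,
  .scale ⟨2621138010112, 0, 0, 0⟩ 0,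
  .const ⟨0, 329733641338880, 0, 0⟩,
  .add 1 0,
  .mul 0 5,
  .const ⟨7218766282752, 0, 0, 0⟩,
  .add 1 0,
  .mul 9 0,
  .const ⟨2199023255552, 0, 0, 0⟩,
  .add 1 0,
  .mul 11 0,
  .exp 0,
  .neg 1,
  .exp 0,
  .mul 3 3,
  .lt 0 68719476736,
  .scale ⟨9162596898, 0, 0, 0⟩ 0,
  .const ⟨183251937962, 0, 0, 0⟩,
  .add 1 0,
  .mul 0 3,
  .const ⟨1099511627776, 0, 0, 0⟩,
  .add 1 0,
  .const ⟨65536, 0, 0, 0⟩,
  .rball 1 0,
  .scale ⟨2199023255552, 0, 0, 0⟩ 13,
  .mul 0 1,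
  .add 13 11,
  .scale ⟨549755813888, 0, 0, 0⟩ 0,
  .mul 2 0,
  .mul 0 0,
  .const ⟨20300431360, 0, 0, 0⟩,
  .sub 31 0,
  .const ⟨3680786972672, 0, 0, 0⟩,
  .sub 22 0,
  .mul 0 0,
  .mul 0 1,
  .mul 4 2,
  .mul 22 22,
  .mul 0 0,
  .scale ⟨4398046511104, 0, 0, 0⟩ 27,
  .neg 0,
  .exp 0,
  .scale ⟨0, 90479460352, 0, 0⟩ 8,
  .scale ⟨46340374528, 0, 0, 0⟩ 8,
  .add 1 0,
  .scale ⟨0, 6376456192, 0, 0⟩ 9,
  .add 1 0,
  .scale ⟨0, 5957446467584, 0, 0⟩ 15,
  .add 1 0,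
  .scale ⟨7610229063680, 0, 0, 0⟩ 12,
  .add 1 0,
  .const ⟨776571453440, 0, 0, 0⟩,
  .add 1 0,
  .mul 53 24,
  .mul 0 1,
  .add 0 54,
  .mul 14 0,
  .scale ⟨2199023255552, 0, 0, 0⟩ 19,
  .mul 5 16,
  .sub 1 0,
  .mul 60 0,
  .add 4 60,
  .mul 1 32,
  .mul 0 65,
  .scale ⟨0, 0, 1099511627776, 0⟩ 2,
  .add 1 0,
  .mul 4 68,
  .scale ⟨0, 0, 1099511627776, 0⟩ 6,
  .add 1 0,
  .inv 0,
  .mul 4 0,
  .const ⟨12685185908736, 0, 0, 0⟩,
  .add 42 0,
  .mul 73 0,
  .mul 74 3,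
  .mul 0 4,
  .mul 76 46,
  .sub 1 0,
  .inv 0,
  .mul 5 0,
  .lt 0 1099511627520]

set_option maxRecDepth 1000000 in
noncomputable def c_B1_1 {α : Type} (cst : Z → α) (add sub mul : α → α → α) (scale : Z → α → α)
    (neg inv exp log : α → α) (ok : α → Bool) (isPos : Nat → α → Bool) (isLt : α → Nat → Bool)
    (ball : Nat → α → α) (rball : α → α → α) : List α → Bool
  | [x0, x1, x2, x3] =>
  let v0 := cst ⟨1099511627776, 0, 0, 0⟩; ok v0 && (
  let v1 := scale ⟨2251799813685248, 0, 0, 0⟩ x0; ok v1 && (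
  let v2 := scale ⟨2621138010112, 0, 0, 0⟩ v1; ok v2 && (
  let v3 := cst ⟨0, 329733641338880, 0, 0⟩; ok v3 && (
  let v4 := add v2 v3; ok v4 && (
  let v5 := mul v4 x0; ok v5 && (
  let v6 := cst ⟨7218766282752, 0, 0, 0⟩; ok v6 && (
  let v7 := add v5 v6; ok v7 && (
  let v8 := mul x1 v7; ok v8 && (
  let v9 := cst ⟨2199023255552, 0, 0, 0⟩; ok v9 && (
  let v10 := add v8 v9; ok v10 && (
  let v11 := mul x0 v10; ok v11 && (
  let v12 := exp v11; ok v12 && (
  let v13 := neg v11; ok v13 && (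
  let v14 := exp v13; ok v14 && (
  let v15 := mul v11 v11; ok v15 && (
  isLt v15 68719476736 && (
  let v16 := scale ⟨9162596898, 0, 0, 0⟩ v15; ok v16 && (
  let v17 := cst ⟨183251937962, 0, 0, 0⟩; ok v17 && (
  let v18 := add v16 v17; ok v18 && (
  let v19 := mul v18 v15; ok v19 && (
  let v20 := cst ⟨1099511627776, 0, 0, 0⟩; ok v20 && (
  let v21 := add v19 v20; ok v21 && (
  let v22 := cst ⟨65536, 0, 0, 0⟩; ok v22 && (
  let v23 := rball v21 v22; ok v23 && (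
  let v24 := scale ⟨2199023255552, 0, 0, 0⟩ v10; ok v24 && (
  let v25 := mul v24 v23; ok v25 && (
  let v26 := add v12 v14; ok v26 && (
  let v27 := scale ⟨549755813888, 0, 0, 0⟩ v26; ok v27 && (
  let v28 := mul v25 v27; ok v28 && (
  let v29 := mul v28 v28; ok v29 && (
  let v30 := cst ⟨20300431360, 0, 0, 0⟩; ok v30 && (
  let v31 := sub x0 v30; ok v31 && (
  let v32 := cst ⟨3680786972672, 0, 0, 0⟩; ok v32 && (
  let v33 := sub v10 v32; ok v33 && (
  let v34 := mul v33 v33; ok v34 && (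
  let v35 := mul v34 v33; ok v35 && (
  let v36 := mul v31 v33; ok v36 && (
  let v37 := mul v14 v14; ok v37 && (
  let v38 := mul v37 v37; ok v38 && (
  let v39 := scale ⟨4398046511104, 0, 0, 0⟩ v11; ok v39 && (
  let v40 := neg v39; ok v40 && (
  let v41 := exp v40; ok v41 && (
  let v42 := scale ⟨0, 90479460352, 0, 0⟩ v33; ok v42 && (
  let v43 := scale ⟨46340374528, 0, 0, 0⟩ v34; ok v43 && (
  let v44 := add v42 v43; ok v44 && (
  let v45 := scale ⟨0, 6376456192, 0, 0⟩ v35; ok v45 && (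
  let v46 := add v44 v45; ok v46 && (
  let v47 := scale ⟨0, 5957446467584, 0, 0⟩ v31; ok v47 && (
  let v48 := add v46 v47; ok v48 && (
  let v49 := scale ⟨7610229063680, 0, 0, 0⟩ v36; ok v49 && (
  let v50 := add v48 v49; ok v50 && (
  let v51 := cst ⟨776571453440, 0, 0, 0⟩; ok v51 && (
  let v52 := add v50 v51; ok v52 && (
  let v53 := mul x0 v28; ok v53 && (
  let v54 := mul v53 v52; ok v54 && (
  let v55 := add v54 v0; ok v55 && (
  let v56 := mul v41 v55; ok v56 && (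
  let v57 := scale ⟨2199023255552, 0, 0, 0⟩ v37; ok v57 && (
  let v58 := mul v52 v41; ok v58 && (
  let v59 := sub v57 v58; ok v59 && (
  let v60 := mul x0 v59; ok v60 && (
  let v61 := add v56 v0; ok v61 && (
  let v62 := mul v60 v29; ok v62 && (
  let v63 := mul v62 x2; ok v63 && (
  let v64 := scale ⟨0, 0, 1099511627776, 0⟩ v61; ok v64 && (
  let v65 := add v63 v64; ok v65 && (
  let v66 := mul v61 x2; ok v66 && (
  let v67 := scale ⟨0, 0, 1099511627776, 0⟩ v60; ok v67 && (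
  let v68 := add v66 v67; ok v68 && (
  let v69 := inv v68; ok v69 && (
  let v70 := mul v65 v69; ok v70 && (
  let v71 := cst ⟨12685185908736, 0, 0, 0⟩; ok v71 && (
  let v72 := add v29 v71; ok v72 && (
  let v73 := mul x0 v72; ok v73 && (
  let v74 := mul x0 v70; ok v74 && (
  let v75 := mul v74 v70; ok v75 && (
  let v76 := mul x0 v29; ok v76 && (
  let v77 := sub v75 v76; ok v77 && (
  let v78 := inv v77; ok v78 && (
  let v79 := mul v73 v78; ok v79 && (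
  isLt v79 1099511627520 && (
  true))))))))))))))))))))))))))))))))))))))))))))))))))))))))))))))))))))))))))))))))))
  | _ => false

set_option maxRecDepth 1000000 in
theorem c_B1_1_eq (X : XOps) (m : List X.O.α)
    (h : c_B1_1 X.O.cst X.O.add X.O.sub X.O.mul X.O.scale X.O.neg X.O.inv X.O.exp X.O.log X.O.ok
      X.O.isPos X.O.isLt X.ball X.rball m = true) :
    runX X 3 p_B1_1 m = true := by
  match m, h with
  | [x0, x1, x2, x3], h => exact h

abbrev gB1 : List (List Op) := [(p1_B1 ++ reloc [71, 60, 0, 74] 75 0 p2_1), p_B1_1]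

noncomputable abbrev kB1 : List (List xE.O.α → Bool) := [c_B1_0 xE.O.cst xE.O.add xE.O.sub xE.O.mul xE.O.scale xE.O.neg xE.O.inv xE.O.exp xE.O.log xE.O.ok
      xE.O.isPos xE.O.isLt xE.ball xE.rball, c_B1_1 xE.O.cst xE.O.add xE.O.sub xE.O.mul xE.O.scale xE.O.neg xE.O.inv xE.O.exp xE.O.log xE.O.ok
      xE.O.isPos xE.O.isLt xE.ball xE.rball]

theorem kB1_eq : List.Forall₂ (fun (ops : List Op) (chk : List xE.O.α → Bool) =>
    ∀ m, chk m = true → runX xE 3 ops m = true) gB1 kB1 :=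
  List.Forall₂.cons (c_B1_0_eq xE) (List.Forall₂.cons (c_B1_1_eq xE) List.Forall₂.nil)

theorem gB1_eq : gB1 = [circ (cB tab 1) (PSm tab 1), altP (cB tab 1) (oCut tab 1)] := by decide +kernel

def p1_D1 : List Op := [
  .const ⟨1099511627776, 0, 0, 0⟩,
  .scale ⟨2251799813685248, 0, 0, 0⟩ 1,
  .scale ⟨2621138010112, 0, 0, 0⟩ 0,
  .const ⟨0, 329733641338880, 0, 0⟩,
  .add 1 0,
  .mul 0 5,
  .const ⟨7218766282752, 0, 0, 0⟩,
  .add 1 0,
  .mul 9 0,
  .const ⟨2199023255552, 0, 0, 0⟩,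
  .add 1 0,
  .mul 11 0,
  .exp 0,
  .neg 1,
  .exp 0,
  .mul 3 3,
  .lt 0 68719476736,
  .scale ⟨9162596898, 0, 0, 0⟩ 0,
  .const ⟨183251937962, 0, 0, 0⟩,
  .add 1 0,
  .mul 0 3,
  .const ⟨1099511627776, 0, 0, 0⟩,
  .add 1 0,
  .const ⟨65536, 0, 0, 0⟩,
  .rball 1 0,
  .scale ⟨2199023255552, 0, 0, 0⟩ 13,
  .mul 0 1,
  .add 13 11,
  .scale ⟨549755813888, 0, 0, 0⟩ 0,
  .mul 2 0,
  .mul 0 0,
  .const ⟨12685185908736, 0, 0, 0⟩,
  .add 1 0,
  .scale ⟨0, 0, 1099511627776, 0⟩ 34,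
  .exp 0,
  .mul 2 0,
  .add 5 0,
  .log 0,
  .scale ⟨549755813888, 0, 0, 0⟩ 0,
  .exp 0]

set_option maxRecDepth 1000000 in
noncomputable def c_D1_0 {α : Type} (cst : Z → α) (add sub mul : α → α → α) (scale : Z → α → α)
    (neg inv exp log : α → α) (ok : α → Bool) (isPos : Nat → α → Bool) (isLt : α → Nat → Bool)
    (ball : Nat → α → α) (rball : α → α → α) : List α → Bool
  | [x0, x1, x2, x3] =>
  let v0 := cst ⟨1099511627776, 0, 0, 0⟩; ok v0 && (
  let v1 := scale ⟨2251799813685248, 0, 0, 0⟩ x0; ok v1 && (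
  let v2 := scale ⟨2621138010112, 0, 0, 0⟩ v1; ok v2 && (
  let v3 := cst ⟨0, 329733641338880, 0, 0⟩; ok v3 && (
  let v4 := add v2 v3; ok v4 && (
  let v5 := mul v4 x0; ok v5 && (
  let v6 := cst ⟨7218766282752, 0, 0, 0⟩; ok v6 && (
  let v7 := add v5 v6; ok v7 && (
  let v8 := mul x1 v7; ok v8 && (
  let v9 := cst ⟨2199023255552, 0, 0, 0⟩; ok v9 && (
  let v10 := add v8 v9; ok v10 && (
  let v11 := mul x0 v10; ok v11 && (
  let v12 := exp v11; ok v12 && (
  let v13 := neg v11; ok v13 && (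
  let v14 := exp v13; ok v14 && (
  let v15 := mul v11 v11; ok v15 && (
  isLt v15 68719476736 && (
  let v16 := scale ⟨9162596898, 0, 0, 0⟩ v15; ok v16 && (
  let v17 := cst ⟨183251937962, 0, 0, 0⟩; ok v17 && (
  let v18 := add v16 v17; ok v18 && (
  let v19 := mul v18 v15; ok v19 && (
  let v20 := cst ⟨1099511627776, 0, 0, 0⟩; ok v20 && (
  let v21 := add v19 v20; ok v21 && (
  let v22 := cst ⟨65536, 0, 0, 0⟩; ok v22 && (
  let v23 := rball v21 v22; ok v23 && (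
  let v24 := scale ⟨2199023255552, 0, 0, 0⟩ v10; ok v24 && (
  let v25 := mul v24 v23; ok v25 && (
  let v26 := add v12 v14; ok v26 && (
  let v27 := scale ⟨549755813888, 0, 0, 0⟩ v26; ok v27 && (
  let v28 := mul v25 v27; ok v28 && (
  let v29 := mul v28 v28; ok v29 && (
  let v30 := cst ⟨12685185908736, 0, 0, 0⟩; ok v30 && (
  let v31 := add v29 v30; ok v31 && (
  let v32 := scale ⟨0, 0, 1099511627776, 0⟩ x2; ok v32 && (
  let v33 := exp v32; ok v33 && (
  let v34 := mul v31 v33; ok v34 && (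
  let v35 := add v29 v34; ok v35 && (
  let v36 := log v35; ok v36 && (
  let v37 := scale ⟨549755813888, 0, 0, 0⟩ v36; ok v37 && (
  let v38 := exp v37; ok v38 && (
  c2_1 cst add sub mul scale neg inv exp log ok isPos isLt ball rball [x0, v10, v38, x3]))))))))))))))))))))))))))))))))))))))))
  | _ => false

set_option maxRecDepth 1000000 in
theorem c_D1_0_eq (X : XOps) (m : List X.O.α)
    (h : c_D1_0 X.O.cst X.O.add X.O.sub X.O.mul X.O.scale X.O.neg X.O.inv X.O.exp X.O.log X.O.ok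
      X.O.isPos X.O.isLt X.ball X.rball m = true) :
    runX X 3 (p1_D1 ++ reloc [39, 28, 0, 42] 43 0 p2_1) m = true := by
  match m, h with
  | [x0, x1, x2, x3], h => exact share (c2_1_eq X) [x0, x1, x2, x3] (Nat.le_of_ble_eq_true rfl) h

def p_D1_1 : List Op := [
  .const ⟨1099511627776, 0, 0, 0⟩,
  .scale ⟨2251799813685248, 0, 0, 0⟩ 1,
  .scale ⟨2621138010112, 0, 0, 0⟩ 0,
  .const ⟨0, 329733641338880, 0, 0⟩,
  .add 1 0,
  .mul 0 5,
  .const ⟨7218766282752, 0, 0, 0⟩,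
  .add 1 0,
  .mul 9 0,
  .const ⟨2199023255552, 0, 0, 0⟩,
  .add 1 0,
  .mul 11 0,
  .exp 0,
  .neg 1,
  .exp 0,
  .mul 3 3,
  .lt 0 68719476736,
  .scale ⟨9162596898, 0, 0, 0⟩ 0,
  .const ⟨183251937962, 0, 0, 0⟩,
  .add 1 0,
  .mul 0 3,
  .const ⟨1099511627776, 0, 0, 0⟩,
  .add 1 0,
  .const ⟨65536, 0, 0, 0⟩,
  .rball 1 0,
  .scale ⟨2199023255552, 0, 0, 0⟩ 13,
  .mul 0 1,
  .add 13 11,
  .scale ⟨549755813888, 0, 0, 0⟩ 0,
  .mul 2 0,
  .mul 0 0,
  .const ⟨20300431360, 0, 0, 0⟩,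
  .sub 31 0,
  .const ⟨3680786972672, 0, 0, 0⟩,
  .sub 22 0,
  .mul 0 0,
  .mul 0 1,
  .mul 4 2,
  .mul 22 22,
  .mul 0 0,
  .scale ⟨4398046511104, 0, 0, 0⟩ 27,
  .neg 0,
  .exp 0,
  .scale ⟨0, 90479460352, 0, 0⟩ 8,
  .scale ⟨46340374528, 0, 0, 0⟩ 8,
  .add 1 0,
  .scale ⟨0, 6376456192, 0, 0⟩ 9,
  .add 1 0,
  .scale ⟨0, 5957446467584, 0, 0⟩ 15,
  .add 1 0,
  .scale ⟨7610229063680, 0, 0, 0⟩ 12,
  .add 1 0,
  .const ⟨776571453440, 0, 0, 0⟩,
  .add 1 0,
  .mul 53 24,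
  .mul 0 1,
  .add 0 54,
  .mul 14 0,
  .scale ⟨2199023255552, 0, 0, 0⟩ 19,
  .mul 5 16,
  .sub 1 0,
  .const ⟨12685185908736, 0, 0, 0⟩,
  .add 31 0,
  .scale ⟨0, 0, 1099511627776, 0⟩ 64,
  .exp 0,
  .mul 2 0,
  .add 35 0,
  .log 0,
  .scale ⟨549755813888, 0, 0, 0⟩ 0,
  .exp 0,
  .scale ⟨0, 0, 0, 1099511627776⟩ 71,
  .exp 0,
  .mul 9 0,
  .add 42 0,
  .log 0,
  .scale ⟨549755813888, 0, 0, 0⟩ 0,
  .exp 0,
  .mul 76 16,
  .add 20 76,
  .mul 1 0,
  .mul 10 3,
  .add 50 0,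
  .mul 2 0,
  .mul 25 25,
  .add 0 82,
  .add 15 8,
  .mul 1 0,
  .sub 4 0,
  .pos 0]

set_option maxRecDepth 1000000 in
noncomputable def c_D1_1 {α : Type} (cst : Z → α) (add sub mul : α → α → α) (scale : Z → α → α)
    (neg inv exp log : α → α) (ok : α → Bool) (isPos : Nat → α → Bool) (isLt : α → Nat → Bool)
    (ball : Nat → α → α) (rball : α → α → α) : List α → Bool
  | [x0, x1, x2, x3] =>
  let v0 := cst ⟨1099511627776, 0, 0, 0⟩; ok v0 && (
  let v1 := scale ⟨2251799813685248, 0, 0, 0⟩ x0; ok v1 && (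
  let v2 := scale ⟨2621138010112, 0, 0, 0⟩ v1; ok v2 && (
  let v3 := cst ⟨0, 329733641338880, 0, 0⟩; ok v3 && (
  let v4 := add v2 v3; ok v4 && (
  let v5 := mul v4 x0; ok v5 && (
  let v6 := cst ⟨7218766282752, 0, 0, 0⟩; ok v6 && (
  let v7 := add v5 v6; ok v7 && (
  let v8 := mul x1 v7; ok v8 && (
  let v9 := cst ⟨2199023255552, 0, 0, 0⟩; ok v9 && (
  let v10 := add v8 v9; ok v10 && (
  let v11 := mul x0 v10; ok v11 && (
  let v12 := exp v11; ok v12 && (
  let v13 := neg v11; ok v13 && (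
  let v14 := exp v13; ok v14 && (
  let v15 := mul v11 v11; ok v15 && (
  isLt v15 68719476736 && (
  let v16 := scale ⟨9162596898, 0, 0, 0⟩ v15; ok v16 && (
  let v17 := cst ⟨183251937962, 0, 0, 0⟩; ok v17 && (
  let v18 := add v16 v17; ok v18 && (
  let v19 := mul v18 v15; ok v19 && (
  let v20 := cst ⟨1099511627776, 0, 0, 0⟩; ok v20 && (
  let v21 := add v19 v20; ok v21 && (
  let v22 := cst ⟨65536, 0, 0, 0⟩; ok v22 && (
  let v23 := rball v21 v22; ok v23 && (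
  let v24 := scale ⟨2199023255552, 0, 0, 0⟩ v10; ok v24 && (
  let v25 := mul v24 v23; ok v25 && (
  let v26 := add v12 v14; ok v26 && (
  let v27 := scale ⟨549755813888, 0, 0, 0⟩ v26; ok v27 && (
  let v28 := mul v25 v27; ok v28 && (
  let v29 := mul v28 v28; ok v29 && (
  let v30 := cst ⟨20300431360, 0, 0, 0⟩; ok v30 && (
  let v31 := sub x0 v30; ok v31 && (
  let v32 := cst ⟨3680786972672, 0, 0, 0⟩; ok v32 && (
  let v33 := sub v10 v32; ok v33 && (
  let v34 := mul v33 v33; ok v34 && (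
  let v35 := mul v34 v33; ok v35 && (
  let v36 := mul v31 v33; ok v36 && (
  let v37 := mul v14 v14; ok v37 && (
  let v38 := mul v37 v37; ok v38 && (
  let v39 := scale ⟨4398046511104, 0, 0, 0⟩ v11; ok v39 && (
  let v40 := neg v39; ok v40 && (
  let v41 := exp v40; ok v41 && (
  let v42 := scale ⟨0, 90479460352, 0, 0⟩ v33; ok v42 && (
  let v43 := scale ⟨46340374528, 0, 0, 0⟩ v34; ok v43 && (
  let v44 := add v42 v43; ok v44 && (
  let v45 := scale ⟨0, 6376456192, 0, 0⟩ v35; ok v45 && (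
  let v46 := add v44 v45; ok v46 && (
  let v47 := scale ⟨0, 5957446467584, 0, 0⟩ v31; ok v47 && (
  let v48 := add v46 v47; ok v48 && (
  let v49 := scale ⟨7610229063680, 0, 0, 0⟩ v36; ok v49 && (
  let v50 := add v48 v49; ok v50 && (
  let v51 := cst ⟨776571453440, 0, 0, 0⟩; ok v51 && (
  let v52 := add v50 v51; ok v52 && (
  let v53 := mul x0 v28; ok v53 && (
  let v54 := mul v53 v52; ok v54 && (
  let v55 := add v54 v0; ok v55 && (
  let v56 := mul v41 v55; ok v56 && (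
  let v57 := scale ⟨2199023255552, 0, 0, 0⟩ v37; ok v57 && (
  let v58 := mul v52 v41; ok v58 && (
  let v59 := sub v57 v58; ok v59 && (
  let v60 := cst ⟨12685185908736, 0, 0, 0⟩; ok v60 && (
  let v61 := add v29 v60; ok v61 && (
  let v62 := scale ⟨0, 0, 1099511627776, 0⟩ x2; ok v62 && (
  let v63 := exp v62; ok v63 && (
  let v64 := mul v61 v63; ok v64 && (
  let v65 := add v29 v64; ok v65 && (
  let v66 := log v65; ok v66 && (
  let v67 := scale ⟨549755813888, 0, 0, 0⟩ v66; ok v67 && (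
  let v68 := exp v67; ok v68 && (
  let v69 := scale ⟨0, 0, 0, 1099511627776⟩ x2; ok v69 && (
  let v70 := exp v69; ok v70 && (
  let v71 := mul v61 v70; ok v71 && (
  let v72 := add v29 v71; ok v72 && (
  let v73 := log v72; ok v73 && (
  let v74 := scale ⟨549755813888, 0, 0, 0⟩ v73; ok v74 && (
  let v75 := exp v74; ok v75 && (
  let v76 := mul x0 v59; ok v76 && (
  let v77 := add v56 v0; ok v77 && (
  let v78 := mul v76 v77; ok v78 && (
  let v79 := mul v68 v75; ok v79 && (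
  let v80 := add v29 v79; ok v80 && (
  let v81 := mul v78 v80; ok v81 && (
  let v82 := mul v56 v56; ok v82 && (
  let v83 := add v82 v0; ok v83 && (
  let v84 := add v68 v75; ok v84 && (
  let v85 := mul v83 v84; ok v85 && (
  let v86 := sub v81 v85; ok v86 && (
  isPos 3 v86 && (
  true)))))))))))))))))))))))))))))))))))))))))))))))))))))))))))))))))))))))))))))))))))))))))
  | _ => false

set_option maxRecDepth 1000000 in
theorem c_D1_1_eq (X : XOps) (m : List X.O.α)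
    (h : c_D1_1 X.O.cst X.O.add X.O.sub X.O.mul X.O.scale X.O.neg X.O.inv X.O.exp X.O.log X.O.ok
      X.O.isPos X.O.isLt X.ball X.rball m = true) :
    runX X 3 p_D1_1 m = true := by
  match m, h with
  | [x0, x1, x2, x3], h => exact h

abbrev gD1 : List (List Op) := [(p1_D1 ++ reloc [39, 28, 0, 42] 43 0 p2_1), p_D1_1]

noncomputable abbrev kD1 : List (List xE.O.α → Bool) := [c_D1_0 xE.O.cst xE.O.add xE.O.sub xE.O.mul xE.O.scale xE.O.neg xE.O.inv xE.O.exp xE.O.log xE.O.ok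
      xE.O.isPos xE.O.isLt xE.ball xE.rball, c_D1_1 xE.O.cst xE.O.add xE.O.sub xE.O.mul xE.O.scale xE.O.neg xE.O.inv xE.O.exp xE.O.log xE.O.ok
      xE.O.isPos xE.O.isLt xE.ball xE.rball]

theorem kD1_eq : List.Forall₂ (fun (ops : List Op) (chk : List xE.O.α → Bool) =>
    ∀ m, chk m = true → runX xE 3 ops m = true) gD1 kD1 :=
  List.Forall₂.cons (c_D1_0_eq xE) (List.Forall₂.cons (c_D1_1_eq xE) List.Forall₂.nil)

theorem gD1_eq : gD1 = [circ (cD tab 1) (PSm tab 1), comp (oD tab 1) ρ4 4] := by decide +kernel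

def p1_E1 : List Op := [
  .const ⟨1099511627776, 0, 0, 0⟩,
  .scale ⟨2251799813685248, 0, 0, 0⟩ 1,
  .scale ⟨2621138010112, 0, 0, 0⟩ 0,
  .const ⟨0, 329733641338880, 0, 0⟩,
  .add 1 0,
  .mul 0 5,
  .const ⟨7218766282752, 0, 0, 0⟩,
  .add 1 0,
  .mul 9 0,
  .const ⟨2199023255552, 0, 0, 0⟩,
  .add 1 0,
  .mul 11 0,
  .exp 0,
  .neg 1,
  .exp 0,
  .mul 3 3,
  .lt 0 68719476736,
  .scale ⟨9162596898, 0, 0, 0⟩ 0,
  .const ⟨183251937962, 0, 0, 0⟩,
  .add 1 0,
  .mul 0 3,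
  .const ⟨1099511627776, 0, 0, 0⟩,
  .add 1 0,
  .const ⟨65536, 0, 0, 0⟩,
  .rball 1 0,
  .scale ⟨2199023255552, 0, 0, 0⟩ 13,
  .mul 0 1,
  .add 13 11,
  .scale ⟨549755813888, 0, 0, 0⟩ 0,
  .mul 2 0,
  .mul 0 0,
  .const ⟨12685185908736, 0, 0, 0⟩,
  .add 1 0,
  .scale ⟨0, 0, 0, 1099511627776⟩ 34,
  .exp 0,
  .mul 2 0,
  .sub 0 5,
  .log 0,
  .scale ⟨549755813888, 0, 0, 0⟩ 0,
  .exp 0,
  .scale ⟨0, 0, 1099511627776, 0⟩ 0]

set_option maxRecDepth 1000000 in
noncomputable def c_E1_0 {α : Type} (cst : Z → α) (add sub mul : α → α → α) (scale : Z → α → α)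
    (neg inv exp log : α → α) (ok : α → Bool) (isPos : Nat → α → Bool) (isLt : α → Nat → Bool)
    (ball : Nat → α → α) (rball : α → α → α) : List α → Bool
  | [x0, x1, x2, x3] =>
  let v0 := cst ⟨1099511627776, 0, 0, 0⟩; ok v0 && (
  let v1 := scale ⟨2251799813685248, 0, 0, 0⟩ x0; ok v1 && (
  let v2 := scale ⟨2621138010112, 0, 0, 0⟩ v1; ok v2 && (
  let v3 := cst ⟨0, 329733641338880, 0, 0⟩; ok v3 && (
  let v4 := add v2 v3; ok v4 && (
  let v5 := mul v4 x0; ok v5 && (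
  let v6 := cst ⟨7218766282752, 0, 0, 0⟩; ok v6 && (
  let v7 := add v5 v6; ok v7 && (
  let v8 := mul x1 v7; ok v8 && (
  let v9 := cst ⟨2199023255552, 0, 0, 0⟩; ok v9 && (
  let v10 := add v8 v9; ok v10 && (
  let v11 := mul x0 v10; ok v11 && (
  let v12 := exp v11; ok v12 && (
  let v13 := neg v11; ok v13 && (
  let v14 := exp v13; ok v14 && (
  let v15 := mul v11 v11; ok v15 && (
  isLt v15 68719476736 && (
  let v16 := scale ⟨9162596898, 0, 0, 0⟩ v15; ok v16 && (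
  let v17 := cst ⟨183251937962, 0, 0, 0⟩; ok v17 && (
  let v18 := add v16 v17; ok v18 && (
  let v19 := mul v18 v15; ok v19 && (
  let v20 := cst ⟨1099511627776, 0, 0, 0⟩; ok v20 && (
  let v21 := add v19 v20; ok v21 && (
  let v22 := cst ⟨65536, 0, 0, 0⟩; ok v22 && (
  let v23 := rball v21 v22; ok v23 && (
  let v24 := scale ⟨2199023255552, 0, 0, 0⟩ v10; ok v24 && (
  let v25 := mul v24 v23; ok v25 && (
  let v26 := add v12 v14; ok v26 && (
  let v27 := scale ⟨549755813888, 0, 0, 0⟩ v26; ok v27 && (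
  let v28 := mul v25 v27; ok v28 && (
  let v29 := mul v28 v28; ok v29 && (
  let v30 := cst ⟨12685185908736, 0, 0, 0⟩; ok v30 && (
  let v31 := add v29 v30; ok v31 && (
  let v32 := scale ⟨0, 0, 0, 1099511627776⟩ x2; ok v32 && (
  let v33 := exp v32; ok v33 && (
  let v34 := mul v31 v33; ok v34 && (
  let v35 := sub v34 v29; ok v35 && (
  let v36 := log v35; ok v36 && (
  let v37 := scale ⟨549755813888, 0, 0, 0⟩ v36; ok v37 && (
  let v38 := exp v37; ok v38 && (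
  let v39 := scale ⟨0, 0, 1099511627776, 0⟩ v38; ok v39 && (
  c2_1 cst add sub mul scale neg inv exp log ok isPos isLt ball rball [x0, v10, v39, x3])))))))))))))))))))))))))))))))))))))))))
  | _ => false

set_option maxRecDepth 1000000 in
theorem c_E1_0_eq (X : XOps) (m : List X.O.α)
    (h : c_E1_0 X.O.cst X.O.add X.O.sub X.O.mul X.O.scale X.O.neg X.O.inv X.O.exp X.O.log X.O.ok
      X.O.isPos X.O.isLt X.ball X.rball m = true) :
    runX X 3 (p1_E1 ++ reloc [40, 29, 0, 43] 44 0 p2_1) m = true := by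
  match m, h with
  | [x0, x1, x2, x3], h => exact share (c2_1_eq X) [x0, x1, x2, x3] (Nat.le_of_ble_eq_true rfl) h

def p_E1_1 : List Op := [
  .const ⟨1099511627776, 0, 0, 0⟩,
  .scale ⟨2251799813685248, 0, 0, 0⟩ 1,
  .scale ⟨2621138010112, 0, 0, 0⟩ 0,
  .const ⟨0, 329733641338880, 0, 0⟩,
  .add 1 0,
  .mul 0 5,
  .const ⟨7218766282752, 0, 0, 0⟩,
  .add 1 0,
  .mul 9 0,
  .const ⟨2199023255552, 0, 0, 0⟩,
  .add 1 0,
  .mul 11 0,
  .exp 0,
  .neg 1,
  .exp 0,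
  .mul 3 3,
  .lt 0 68719476736,
  .scale ⟨9162596898, 0, 0, 0⟩ 0,
  .const ⟨183251937962, 0, 0, 0⟩,
  .add 1 0,
  .mul 0 3,
  .const ⟨1099511627776, 0, 0, 0⟩,
  .add 1 0,
  .const ⟨65536, 0, 0, 0⟩,
  .rball 1 0,
  .scale ⟨2199023255552, 0, 0, 0⟩ 13,
  .mul 0 1,
  .add 13 11,
  .scale ⟨549755813888, 0, 0, 0⟩ 0,
  .mul 2 0,
  .mul 0 0,
  .const ⟨20300431360, 0, 0, 0⟩,
  .sub 31 0,
  .const ⟨3680786972672, 0, 0, 0⟩,
  .sub 22 0,
  .mul 0 0,
  .mul 0 1,
  .mul 4 2,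
  .mul 22 22,
  .mul 0 0,
  .scale ⟨4398046511104, 0, 0, 0⟩ 27,
  .neg 0,
  .exp 0,
  .scale ⟨0, 90479460352, 0, 0⟩ 8,
  .scale ⟨46340374528, 0, 0, 0⟩ 8,
  .add 1 0,
  .scale ⟨0, 6376456192, 0, 0⟩ 9,
  .add 1 0,
  .scale ⟨0, 5957446467584, 0, 0⟩ 15,
  .add 1 0,
  .scale ⟨7610229063680, 0, 0, 0⟩ 12,
  .add 1 0,
  .const ⟨776571453440, 0, 0, 0⟩,
  .add 1 0,
  .mul 53 24,
  .mul 0 1,
  .add 0 54,
  .mul 14 0,
  .scale ⟨2199023255552, 0, 0, 0⟩ 19,
  .mul 5 16,
  .sub 1 0,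
  .const ⟨12685185908736, 0, 0, 0⟩,
  .add 31 0,
  .scale ⟨0, 0, 0, 1099511627776⟩ 64,
  .exp 0,
  .mul 2 0,
  .sub 0 35,
  .log 0,
  .scale ⟨549755813888, 0, 0, 0⟩ 0,
  .exp 0,
  .scale ⟨0, 0, 1099511627776, 0⟩ 0,
  .scale ⟨0, 0, 1099511627776, 0⟩ 72,
  .exp 0,
  .mul 10 0,
  .sub 0 43,
  .log 0,
  .scale ⟨549755813888, 0, 0, 0⟩ 0,
  .exp 0,
  .scale ⟨0, 0, 0, 1099511627776⟩ 0,
  .mul 78 18,
  .add 22 78,
  .mul 1 0,
  .mul 11 3,
  .add 52 0,
  .mul 2 0,
  .mul 27 27,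
  .add 0 84,
  .add 16 8,
  .mul 1 0,
  .sub 4 0,
  .pos 0]

set_option maxRecDepth 1000000 in
noncomputable def c_E1_1 {α : Type} (cst : Z → α) (add sub mul : α → α → α) (scale : Z → α → α)
    (neg inv exp log : α → α) (ok : α → Bool) (isPos : Nat → α → Bool) (isLt : α → Nat → Bool)
    (ball : Nat → α → α) (rball : α → α → α) : List α → Bool
  | [x0, x1, x2, x3] =>
  let v0 := cst ⟨1099511627776, 0, 0, 0⟩; ok v0 && (
  let v1 := scale ⟨2251799813685248, 0, 0, 0⟩ x0; ok v1 && (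
  let v2 := scale ⟨2621138010112, 0, 0, 0⟩ v1; ok v2 && (
  let v3 := cst ⟨0, 329733641338880, 0, 0⟩; ok v3 && (
  let v4 := add v2 v3; ok v4 && (
  let v5 := mul v4 x0; ok v5 && (
  let v6 := cst ⟨7218766282752, 0, 0, 0⟩; ok v6 && (
  let v7 := add v5 v6; ok v7 && (
  let v8 := mul x1 v7; ok v8 && (
  let v9 := cst ⟨2199023255552, 0, 0, 0⟩; ok v9 && (
  let v10 := add v8 v9; ok v10 && (
  let v11 := mul x0 v10; ok v11 && (
  let v12 := exp v11; ok v12 && (
  let v13 := neg v11; ok v13 && (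
  let v14 := exp v13; ok v14 && (
  let v15 := mul v11 v11; ok v15 && (
  isLt v15 68719476736 && (
  let v16 := scale ⟨9162596898, 0, 0, 0⟩ v15; ok v16 && (
  let v17 := cst ⟨183251937962, 0, 0, 0⟩; ok v17 && (
  let v18 := add v16 v17; ok v18 && (
  let v19 := mul v18 v15; ok v19 && (
  let v20 := cst ⟨1099511627776, 0, 0, 0⟩; ok v20 && (
  let v21 := add v19 v20; ok v21 && (
  let v22 := cst ⟨65536, 0, 0, 0⟩; ok v22 && (
  let v23 := rball v21 v22; ok v23 && (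
  let v24 := scale ⟨2199023255552, 0, 0, 0⟩ v10; ok v24 && (
  let v25 := mul v24 v23; ok v25 && (
  let v26 := add v12 v14; ok v26 && (
  let v27 := scale ⟨549755813888, 0, 0, 0⟩ v26; ok v27 && (
  let v28 := mul v25 v27; ok v28 && (
  let v29 := mul v28 v28; ok v29 && (
  let v30 := cst ⟨20300431360, 0, 0, 0⟩; ok v30 && (
  let v31 := sub x0 v30; ok v31 && (
  let v32 := cst ⟨3680786972672, 0, 0, 0⟩; ok v32 && (
  let v33 := sub v10 v32; ok v33 && (
  let v34 := mul v33 v33; ok v34 && (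
  let v35 := mul v34 v33; ok v35 && (
  let v36 := mul v31 v33; ok v36 && (
  let v37 := mul v14 v14; ok v37 && (
  let v38 := mul v37 v37; ok v38 && (
  let v39 := scale ⟨4398046511104, 0, 0, 0⟩ v11; ok v39 && (
  let v40 := neg v39; ok v40 && (
  let v41 := exp v40; ok v41 && (
  let v42 := scale ⟨0, 90479460352, 0, 0⟩ v33; ok v42 && (
  let v43 := scale ⟨46340374528, 0, 0, 0⟩ v34; ok v43 && (
  let v44 := add v42 v43; ok v44 && (
  let v45 := scale ⟨0, 6376456192, 0, 0⟩ v35; ok v45 && (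
  let v46 := add v44 v45; ok v46 && (
  let v47 := scale ⟨0, 5957446467584, 0, 0⟩ v31; ok v47 && (
  let v48 := add v46 v47; ok v48 && (
  let v49 := scale ⟨7610229063680, 0, 0, 0⟩ v36; ok v49 && (
  let v50 := add v48 v49; ok v50 && (
  let v51 := cst ⟨776571453440, 0, 0, 0⟩; ok v51 && (
  let v52 := add v50 v51; ok v52 && (
  let v53 := mul x0 v28; ok v53 && (
  let v54 := mul v53 v52; ok v54 && (
  let v55 := add v54 v0; ok v55 && (
  let v56 := mul v41 v55; ok v56 && (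
  let v57 := scale ⟨2199023255552, 0, 0, 0⟩ v37; ok v57 && (
  let v58 := mul v52 v41; ok v58 && (
  let v59 := sub v57 v58; ok v59 && (
  let v60 := cst ⟨12685185908736, 0, 0, 0⟩; ok v60 && (
  let v61 := add v29 v60; ok v61 && (
  let v62 := scale ⟨0, 0, 0, 1099511627776⟩ x2; ok v62 && (
  let v63 := exp v62; ok v63 && (
  let v64 := mul v61 v63; ok v64 && (
  let v65 := sub v64 v29; ok v65 && (
  let v66 := log v65; ok v66 && (
  let v67 := scale ⟨549755813888, 0, 0, 0⟩ v66; ok v67 && (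
  let v68 := exp v67; ok v68 && (
  let v69 := scale ⟨0, 0, 1099511627776, 0⟩ v68; ok v69 && (
  let v70 := scale ⟨0, 0, 1099511627776, 0⟩ x2; ok v70 && (
  let v71 := exp v70; ok v71 && (
  let v72 := mul v61 v71; ok v72 && (
  let v73 := sub v72 v29; ok v73 && (
  let v74 := log v73; ok v74 && (
  let v75 := scale ⟨549755813888, 0, 0, 0⟩ v74; ok v75 && (
  let v76 := exp v75; ok v76 && (
  let v77 := scale ⟨0, 0, 0, 1099511627776⟩ v76; ok v77 && (
  let v78 := mul x0 v59; ok v78 && (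
  let v79 := add v56 v0; ok v79 && (
  let v80 := mul v78 v79; ok v80 && (
  let v81 := mul v69 v77; ok v81 && (
  let v82 := add v29 v81; ok v82 && (
  let v83 := mul v80 v82; ok v83 && (
  let v84 := mul v56 v56; ok v84 && (
  let v85 := add v84 v0; ok v85 && (
  let v86 := add v69 v77; ok v86 && (
  let v87 := mul v85 v86; ok v87 && (
  let v88 := sub v83 v87; ok v88 && (
  isPos 3 v88 && (
  true)))))))))))))))))))))))))))))))))))))))))))))))))))))))))))))))))))))))))))))))))))))))))))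
  | _ => false

set_option maxRecDepth 1000000 in
theorem c_E1_1_eq (X : XOps) (m : List X.O.α)
    (h : c_E1_1 X.O.cst X.O.add X.O.sub X.O.mul X.O.scale X.O.neg X.O.inv X.O.exp X.O.log X.O.ok
      X.O.isPos X.O.isLt X.ball X.rball m = true) :
    runX X 3 p_E1_1 m = true := by
  match m, h with
  | [x0, x1, x2, x3], h => exact h

abbrev gE1 : List (List Op) := [(p1_E1 ++ reloc [40, 29, 0, 43] 44 0 p2_1), p_E1_1]

noncomputable abbrev kE1 : List (List xE.O.α → Bool) := [c_E1_0 xE.O.cst xE.O.add xE.O.sub xE.O.mul xE.O.scale xE.O.neg xE.O.inv xE.O.exp xE.O.log xE.O.ok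
      xE.O.isPos xE.O.isLt xE.ball xE.rball, c_E1_1 xE.O.cst xE.O.add xE.O.sub xE.O.mul xE.O.scale xE.O.neg xE.O.inv xE.O.exp xE.O.log xE.O.ok
      xE.O.isPos xE.O.isLt xE.ball xE.rball]

theorem kE1_eq : List.Forall₂ (fun (ops : List Op) (chk : List xE.O.α → Bool) =>
    ∀ m, chk m = true → runX xE 3 ops m = true) gE1 kE1 :=
  List.Forall₂.cons (c_E1_0_eq xE) (List.Forall₂.cons (c_E1_1_eq xE) List.Forall₂.nil)

theorem gE1_eq : gE1 = [circ (cE tab 1) (PSm tab 1), comp (oE tab 1) ρ4 4] := by decide +kernel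

end Pool.Agent.helper14.NS.Q45e
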