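import Pool.Agent.helper14.NS.Cert

/-!
Generated: table Q45e.
-/

namespace Pool.Agent.helper14.NS.Q45e

open Pool.Agent.helper63.NF Pool.Agent.helper4.NS

def tab : TD where
  strip := false
  bm := some (5368090644709376, -329733641338880, 7218766282752, 2199023255552)
  ec := 20300431360
  bc := 3680786972672
  H := [[[19122648320, 20724276224, -188471744, -27016384], [-73760128512, -172179844672], [6955253827136]], [[831810752, -1585034624, 68910976], [141493681536, 36988209088]], [[-384672000, 41917376, -2117632], [-14088356096]], [[45627584, 1321536], [299147136]], [[-2955968, -68992]], [[97408]], [[-1216]]]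
  pol := some ⟨-2500207837184, -67705864454144, 5872294035456, 31362867265536, [[-244682256384, -92484356608], [-9253067868544, 0]], [[691652083072, -416015052480], [62483878609088, 0]]⟩
  a := [[[373833924608, 0, 0, 0], [0, 0]], [[32985317376, 0, 0, 0], [0, 0]], [[27267891200, 0, 0, 0], [0, 0]], [[19791216640, 0, 0, 0], [0, 0]], [[23309647872, 0, 0, 0], [0, 0]]]
  j := [0, 0, 0, 0, 0]
  c := [879662989312, 549755813888, 329907175424, 159987531776, 145223581696]
  M := [[[[1122615558144, 19056230400, 1367670784], [3350150971392, 1963554570240], [40234440654848]], [[73280520192, 2635464704], [4693544402944]], [[2326986752, -15744892928], [-17461805056]], [[53223292928]], [[-67143663616]], [[68275339264]]], [[[1126051741696, 11386028032, -1037828096], [1713458249728]], [[10809180160, 200212480], [634688372736]], [[-72482816]], [[2228224]]], [[[1126704676864, 11835736064, -758054912], [1764443291648]], [[10407313408, 175898624], [625471389696]], [[-13828096]], [[65536]]], [[[1127671988224, 12099125248, -1033633792], [1938288214016]], [[10261954560, 142213120], [595162890240]], [[2359296]], [[-589824]]], [[[1129071771648, 12505055232, -1079508992], [2041043288064]], [[9893249024, 107479040],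 [586426286080]], [[35651584]], [[-1507328]]]]
  l0 := [[[3650622496832, -40349000384], [-7782463731328]], [[1056975899584, -13844948864], [46103205629952]], [[828459011200, 179438637248], [-34692467069888]], [[-860310011904, 1272989237376], [681809927726720]], [[1891542795200, -691622902272], [-429109868624320]], [[-12792719275136, 2225550833920], [1205146078142272]], [[21931914289408]], [[-69694817761024]], [[87068879289920]], [[-138570641630336]], [[88302759635648]], [[-65228858918848]]]
  q0 := [[311768478464, 112892486784, 2447171712], [17728918014464, 6049530693312], [-22901149236864]]
  t := [[[776571453440, -90479460352, 46340374528, -6376456192], [-5957446467584, 7610229063680]], [[488400224256, 50540904448, -6880231424, 1235288064], [6022018367488, -310254501888]], [[475017969664, 40370307072, -13423804416, 2124611584], [4862912954368, -1266127732736]], [[468232306688, 44331040768, -13000179712, 1946484736], [5769108586496, -576371556352]], [[517402263552, 62993072128, -12226330624, 1821573120], [9424318038016, 1108131577856]]]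
  y := [12685185908736, 15985868275712, 18016314064896, 19480897912832, 20488067743744]
  sc := [0, 0, 0, 0, 0]
  L := [(0, 2), (0, 3), (1, 1), (2, 0)]
  Lt := [(0, 2), (0, 3), (1, 1)]
  far := 3
  x2 := 10775214161920
  B1 := 1429364277248
  C2 := 1529755045888
  f1 := 0
  f2 := 0
  f3 := 0
  is1 := 8796093022208
  s1 := 137438953472

end Pool.Agent.helper14.NS.Q45e
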